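import Mathlib

set_option autoImplicit false

/-!
# The analytic lemma of the majority law
-/

namespace Pool.Agent.K4H10.ZO

open Filter Topology

/-- log-convexity along the even numbers and the bound `t m ≤ D ^ m` bound the growth -/
lemma even_steps (D : ℕ) (hD : 0 < D) (r : ℕ → ℕ) (h2 : ∀ m, r m ≤ D ^ m) (h3 : ∀ m, 0 < r m)
    (h5 : ∀ k ≥ 1, r (2 * k + 2) ^ 2 ≤ r (2 * k) * r (2 * k + 4)) :
    ∀ p k, 1 ≤ k → (r (2 * k + 2 * p) : ℝ) ≤ (D : ℝ) ^ (2 * p) * r (2 * k) := by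
  have hDR : (0 : ℝ) < D := by exact_mod_cast hD
  have hr : ∀ m, (0 : ℝ) < r m := fun m => by exact_mod_cast h3 m
  have s1 : ∀ k ≥ 1, (r (2 * k + 2) : ℝ) ≤ (D : ℝ) ^ 2 * r (2 * k) := by
    intro k hk
    by_contra hcon
    push Not at hcon
    obtain ⟨ρ, hρ⟩ : ∃ ρ : ℝ, ρ = (r (2 * k + 2) : ℝ) / r (2 * k) := ⟨_, rfl⟩
    have hρD : (D : ℝ) ^ 2 < ρ := by
      rw [hρ, lt_div_iff₀ (hr _)]; exact hcon
    have hρ0 : 0 < ρ := lt_trans (by positivity) hρD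
    have t1 : ∀ j, ρ * (r (2 * (k + j)) : ℝ) ≤ r (2 * (k + j) + 2) := by
      intro j
      induction j with
      | zero =>
        rw [add_zero, hρ, div_mul_cancel₀ _ (hr _).ne']
      | succ j ih =>
        have h := h5 (k + j) (by omega)
        have h' : ((r (2 * (k + j) + 2) : ℝ)) ^ 2 ≤ r (2 * (k + j)) * r (2 * (k + j) + 4) := by
          exact_mod_cast h
        have e1 : 2 * (k + (j + 1)) = 2 * (k + j) + 2 := by ring
        rw [e1]
        have hx := hr (2 * (k + j))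
        have hy := hr (2 * (k + j) + 2)
        have e2 : 2 * (k + j) + 2 + 2 = 2 * (k + j) + 4 := by ring
        rw [e2]
        have h3' : ρ * (r (2 * (k + j)) : ℝ) * r (2 * (k + j) + 2) ≤
            r (2 * (k + j)) * r (2 * (k + j) + 4) := by
          calc ρ * (r (2 * (k + j)) : ℝ) * r (2 * (k + j) + 2)
              ≤ r (2 * (k + j) + 2) * r (2 * (k + j) + 2) :=
                mul_le_mul_of_nonneg_right ih hy.le
            _ = (r (2 * (k + j) + 2) : ℝ) ^ 2 := by ring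
            _ ≤ _ := h'
        have h4' : (r (2 * (k + j)) : ℝ) * (ρ * r (2 * (k + j) + 2)) ≤
            r (2 * (k + j)) * r (2 * (k + j) + 4) := by
          calc (r (2 * (k + j)) : ℝ) * (ρ * r (2 * (k + j) + 2))
              = ρ * (r (2 * (k + j)) : ℝ) * r (2 * (k + j) + 2) := by ring
            _ ≤ _ := h3'
        exact le_of_mul_le_mul_left h4' hx
    have t2 : ∀ j, ρ ^ j ≤ (r (2 * (k + j)) : ℝ) := by
      intro j
      induction j with
      | zero =>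
        rw [pow_zero, add_zero]
        exact_mod_cast h3 (2 * k)
      | succ j ih =>
        have e1 : 2 * (k + (j + 1)) = 2 * (k + j) + 2 := by ring
        rw [e1, pow_succ, mul_comm]
        exact le_trans (mul_le_mul_of_nonneg_left ih hρ0.le) (t1 j)
    have t3 : ∀ j, (ρ / (D : ℝ) ^ 2) ^ j ≤ (D : ℝ) ^ (2 * k) := by
      intro j
      have h : (r (2 * (k + j)) : ℝ) ≤ (D : ℝ) ^ (2 * (k + j)) := by
        exact_mod_cast h2 _
      rw [div_pow, div_le_iff₀ (by positivity)]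
      calc ρ ^ j ≤ r (2 * (k + j)) := t2 j
        _ ≤ (D : ℝ) ^ (2 * (k + j)) := h
        _ = (D : ℝ) ^ (2 * k) * ((D : ℝ) ^ 2) ^ j := by rw [← pow_mul, ← pow_add]; ring_nf
    have hlt : 1 < ρ / (D : ℝ) ^ 2 := by
      rw [one_lt_div (by positivity)]; exact hρD
    obtain ⟨j, hj⟩ := ((tendsto_pow_atTop_atTop_of_one_lt hlt).eventually_gt_atTop
      ((D : ℝ) ^ (2 * k))).exists
    exact absurd (t3 j) (not_le.2 hj)
  intro p
  induction p with
  | zero => intro k hk; simp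
  | succ p ih =>
    intro k hk
    have e1 : 2 * k + 2 * (p + 1) = 2 * (k + p) + 2 := by ring
    have e2 : 2 * (k + p) = 2 * k + 2 * p := by ring
    rw [e1]
    calc (r (2 * (k + p) + 2) : ℝ) ≤ (D : ℝ) ^ 2 * r (2 * (k + p)) := s1 (k + p) (by omega)
      _ = (D : ℝ) ^ 2 * r (2 * k + 2 * p) := by rw [e2]
      _ ≤ (D : ℝ) ^ 2 * ((D : ℝ) ^ (2 * p) * r (2 * k)) :=
        mul_le_mul_of_nonneg_left (ih k hk) (by positivity)
      _ = (D : ℝ) ^ (2 * (p + 1)) * r (2 * k) := by ring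

theorem taskF (D q : ℕ) (hD : 0 < D) (hq : 0 < q) (a t : ℕ → ℕ)
    (h1 : ∀ m, a m ≤ t m) (h2 : ∀ m, t m ≤ D ^ m) (h3 : ∀ m, 0 < a m)
    (h4 : ∀ k ≥ 1, D ^ (2 * k) ≤ a (2 * k) * (k + 1) ^ (D ^ 2))
    (h5 : ∀ k ≥ 1, t (2 * k + 2) ^ 2 ≤ t (2 * k) * t (2 * k + 4))
    (h6 : ∀ m ≥ 1, a m ≤ a (m + 1)) (h7 : ∀ m ≥ 1, t m ≤ t (m + 1))
    (h8 : ∀ ε : ℝ, 0 < ε → ε < 1 → ∃ C κ : ℝ, 0 ≤ C ∧ 0 < κ ∧ κ < 1 ∧ ∀ m ≥ 1,
      (1 - ε) * (D : ℝ) ^ q * ((a m : ℝ) - C * κ ^ m * (D : ℝ) ^ m) ≤ (t (m + q) : ℝ) - a (m + q))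
    (h9 : ∀ ε : ℝ, 0 < ε → ε < 1 → ∃ C κ : ℝ, 0 ≤ C ∧ 0 < κ ∧ κ < 1 ∧ ∀ m ≥ 1,
      (1 - ε) * (D : ℝ) ^ q * ((a m : ℝ) - C * κ ^ m * (D : ℝ) ^ m) ≤ (a (m + q) : ℝ))
    (h10 : ∀ ε : ℝ, 0 < ε → ε < 1 → ∃ C κ : ℝ, 0 ≤ C ∧ 0 < κ ∧ κ < 1 ∧ ∀ m ≥ 1,
      (1 - ε) * (D : ℝ) ^ 1 * ((t m : ℝ) - C * κ ^ m * (D : ℝ) ^ m) ≤ (t (m + 1) : ℝ)) :
    ∀ ε : ℝ, 0 < ε → ∀ᶠ m : ℕ in Filter.atTop, (a m : ℝ) ≤ (1 / 2 + ε) * t m := by
  have hDR : (0 : ℝ) < D := by exact_mod_cast hD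
  have haR : ∀ m, (0 : ℝ) < a m := fun m => by exact_mod_cast h3 m
  have hatR : ∀ m, (a m : ℝ) ≤ t m := fun m => by exact_mod_cast h1 m
  have htR : ∀ m, (0 : ℝ) < t m := fun m => lt_of_lt_of_le (haR m) (hatR m)
  have s2 := even_steps D hD t h2 (fun m => lt_of_lt_of_le (h3 m) (h1 m)) h5
  -- the growth of `a`
  have s3 : ∀ m, 2 ≤ m → (D : ℝ) ^ m ≤ D * a m * (m : ℝ) ^ (D ^ 2) := by
    intro m hm
    have hnat : D ^ m ≤ D * a m * m ^ (D ^ 2) := by
      rcases Nat.even_or_odd' m with ⟨k, rfl | rfl⟩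
      · calc D ^ (2 * k) ≤ a (2 * k) * (k + 1) ^ (D ^ 2) := h4 k (by omega)
          _ ≤ (D * a (2 * k)) * (2 * k) ^ (D ^ 2) :=
            Nat.mul_le_mul (Nat.le_mul_of_pos_left _ hD) (Nat.pow_le_pow_left (by omega) _)
      · calc D ^ (2 * k + 1) = D * D ^ (2 * k) := by ring
          _ ≤ D * (a (2 * k) * (k + 1) ^ (D ^ 2)) := Nat.mul_le_mul_left _ (h4 k (by omega))
          _ = (D * a (2 * k)) * (k + 1) ^ (D ^ 2) := by ring
          _ ≤ (D * a (2 * k + 1)) * (2 * k + 1) ^ (D ^ 2) :=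
            Nat.mul_le_mul (Nat.mul_le_mul_left _ (h6 _ (by omega)))
              (Nat.pow_le_pow_left (by omega) _)
    exact_mod_cast hnat
  -- the error terms
  have s4 : ∀ ε C κ : ℝ, 0 < ε → 0 ≤ C → 0 < κ → κ < 1 →
      ∀ᶠ m : ℕ in atTop, C * κ ^ m * (D : ℝ) ^ m ≤ ε * a m := by
    intro ε C κ hε hC hκ hκ1
    have hlim : Tendsto (fun m : ℕ => (C * D) * ((m : ℝ) ^ (D ^ 2) * κ ^ m)) atTop
        (𝓝 ((C * D) * 0)) :=
      (tendsto_pow_const_mul_const_pow_of_abs_lt_one (D ^ 2)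
        (by rw [abs_of_pos hκ]; exact hκ1)).const_mul (C * D)
    rw [mul_zero] at hlim
    filter_upwards [hlim.eventually_lt_const hε, eventually_ge_atTop 2] with m hm hm2
    calc C * κ ^ m * (D : ℝ) ^ m ≤ C * κ ^ m * (D * a m * (m : ℝ) ^ (D ^ 2)) :=
          mul_le_mul_of_nonneg_left (s3 m hm2) (by positivity)
      _ = (C * D) * ((m : ℝ) ^ (D ^ 2) * κ ^ m) * a m := by ring
      _ ≤ ε * a m := mul_le_mul_of_nonneg_right hm.le (haR m).le
  intro ε hε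
  obtain ⟨δ, hδd⟩ : ∃ δ : ℝ, δ = ε / (3 * (1 + 2 * ε)) := ⟨_, rfl⟩
  have hδ : 0 < δ := by rw [hδd]; positivity
  have hδ6 : 6 * δ * (1 + 2 * ε) = 2 * ε := by
    rw [hδd]; field_simp; ring
  have hδ1 : 6 * δ < 1 := by
    have h : 6 * δ * (1 + 2 * ε) < 1 * (1 + 2 * ε) := by rw [hδ6]; linarith
    exact lt_of_mul_lt_mul_right h (by linarith)
  obtain ⟨C₁, κ₁, hC₁, hκ₁, hκ₁1, H8⟩ := h8 δ hδ (by linarith)
  obtain ⟨C₂, κ₂, hC₂, hκ₂, hκ₂1, H9⟩ := h9 δ hδ (by linarith)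
  obtain ⟨C₃, κ₃, hC₃, hκ₃, hκ₃1, H10⟩ := h10 δ hδ (by linarith)
  obtain ⟨c, hc⟩ : ∃ c : ℝ, c = (1 - δ) ^ 2 := ⟨_, rfl⟩
  have hc0 : 0 < c := by
    rw [hc]
    have : 0 < 1 - δ := by linarith
    positivity
  have hc1 : c ≤ 1 := by rw [hc]; nlinarith
  -- the three estimates for large `m`
  have hgen : ∀ (x : ℝ) (e : ℝ) (b : ℕ → ℝ) (m : ℕ), (a m : ℝ) ≤ b m → 0 ≤ x →
      e ≤ δ * a m → c * x * b m ≤ (1 - δ) * x * (b m - e) := by
    intro x e b m hb hx he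
    have h0 : e ≤ δ * b m := le_trans he (mul_le_mul_of_nonneg_left hb hδ.le)
    have h1 : 0 ≤ (1 - δ) * x := mul_nonneg (by linarith) hx
    calc c * x * b m = (1 - δ) * x * (b m - δ * b m) := by rw [hc]; ring
      _ ≤ (1 - δ) * x * (b m - e) := mul_le_mul_of_nonneg_left (by linarith) h1
  have e3 : ∀ᶠ m : ℕ in atTop, c * D * t m ≤ t (m + 1) := by
    filter_upwards [s4 δ C₃ κ₃ hδ hC₃ hκ₃ hκ₃1, eventually_ge_atTop 1] with m hm hm1
    have h := hgen (D ^ 1) _ (fun m => (t m : ℝ)) m (hatR m) (by positivity) hm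
    have h' := le_trans h (H10 m hm1)
    rwa [pow_one] at h'
  have e1 : ∀ᶠ m : ℕ in atTop, c * (D : ℝ) ^ q * a m ≤ t (m + q) - a (m + q) := by
    filter_upwards [s4 δ C₁ κ₁ hδ hC₁ hκ₁ hκ₁1, eventually_ge_atTop 1] with m hm hm1
    exact le_trans (hgen (D ^ q) _ (fun m => (a m : ℝ)) m le_rfl (by positivity) hm) (H8 m hm1)
  have e2 : ∀ᶠ m : ℕ in atTop, c * (D : ℝ) ^ q * a m ≤ a (m + q) := by
    filter_upwards [s4 δ C₂ κ₂ hδ hC₂ hκ₂ hκ₂1, eventually_ge_atTop 1] with m hm hm1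
    exact le_trans (hgen (D ^ q) _ (fun m => (a m : ℝ)) m le_rfl (by positivity) hm) (H9 m hm1)
  obtain ⟨m₀, hm₀⟩ := eventually_atTop.1 e3
  -- the upper bound for `t (m + q)`
  have e4 : ∀ m, m₀ + 3 ≤ m → c ^ 2 * t (m + q) ≤ (D : ℝ) ^ q * t m := by
    intro m hm
    have hcc : ∀ x : ℝ, 0 ≤ x → c * x ≤ x := fun x hx => by
      calc c * x ≤ 1 * x := mul_le_mul_of_nonneg_right hc1 hx
        _ = x := one_mul x
    have g1 : c * D * t (m + q) ≤ t (m + q + 1) := hm₀ (m + q) (by omega)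
    have g2 : c * D * t (m - 1) ≤ t m := by
      have := hm₀ (m - 1) (by omega)
      rwa [Nat.sub_add_cancel (by omega)] at this
    have htq := htR (m + q)
    have htm := htR m
    rcases Nat.even_or_odd' m with ⟨k, hk | hk⟩
    · rcases Nat.even_or_odd' q with ⟨p, hp | hp⟩
      · have h := s2 p k (by omega)
        rw [← hk, ← hp] at h
        calc c ^ 2 * (t (m + q) : ℝ) = c * (c * t (m + q)) := by ring
          _ ≤ c * t (m + q) := hcc _ (by positivity)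
          _ ≤ t (m + q) := hcc _ (by positivity)
          _ ≤ _ := h
      · have h := s2 (p + 1) k (by omega)
        rw [← hk, show m + 2 * (p + 1) = m + q + 1 by omega,
          show 2 * (p + 1) = q + 1 by omega] at h
        have h' : D * (c * t (m + q)) ≤ D * ((D : ℝ) ^ q * t m) := by
          calc D * (c * t (m + q)) = c * D * t (m + q) := by ring
            _ ≤ (D : ℝ) ^ (q + 1) * t m := le_trans g1 h
            _ = D * ((D : ℝ) ^ q * t m) := by ring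
        calc c ^ 2 * (t (m + q) : ℝ) = c * (c * t (m + q)) := by ring
          _ ≤ c * t (m + q) := hcc _ (by positivity)
          _ ≤ _ := le_of_mul_le_mul_left h' hDR
    · rcases Nat.even_or_odd' q with ⟨p, hp | hp⟩
      · have h := s2 (p + 1) k (by omega)
        rw [show 2 * k + 2 * (p + 1) = m + q + 1 by omega,
          show 2 * (p + 1) = q + 2 by omega, show 2 * k = m - 1 by omega] at h
        have h' : (D : ℝ) ^ 2 * (c ^ 2 * t (m + q)) ≤ (D : ℝ) ^ 2 * ((D : ℝ) ^ q * t m) := by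
          calc (D : ℝ) ^ 2 * (c ^ 2 * t (m + q)) = (c * D) * (c * D * t (m + q)) := by ring
            _ ≤ (c * D) * ((D : ℝ) ^ (q + 2) * t (m - 1)) :=
              mul_le_mul_of_nonneg_left (le_trans g1 h) (by positivity)
            _ = (D : ℝ) ^ (q + 2) * (c * D * t (m - 1)) := by ring
            _ ≤ (D : ℝ) ^ (q + 2) * t m := mul_le_mul_of_nonneg_left g2 (by positivity)
            _ = (D : ℝ) ^ 2 * ((D : ℝ) ^ q * t m) := by ring
        exact le_of_mul_le_mul_left h' (by positivity)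
      · have h := s2 (p + 1) k (by omega)
        rw [show 2 * k + 2 * (p + 1) = m + q by omega,
          show 2 * (p + 1) = q + 1 by omega, show 2 * k = m - 1 by omega] at h
        have h' : D * (c * t (m + q)) ≤ D * ((D : ℝ) ^ q * t m) := by
          calc D * (c * t (m + q)) = (c * D) * t (m + q) := by ring
            _ ≤ (c * D) * ((D : ℝ) ^ (q + 1) * t (m - 1)) :=
              mul_le_mul_of_nonneg_left h (by positivity)
            _ = (D : ℝ) ^ (q + 1) * (c * D * t (m - 1)) := by ring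
            _ ≤ (D : ℝ) ^ (q + 1) * t m := mul_le_mul_of_nonneg_left g2 (by positivity)
            _ = D * ((D : ℝ) ^ q * t m) := by ring
        calc c ^ 2 * (t (m + q) : ℝ) = c * (c * t (m + q)) := by ring
          _ ≤ c * t (m + q) := hcc _ (by positivity)
          _ ≤ _ := le_of_mul_le_mul_left h' hDR
  have hc3 : 1 ≤ (1 + 2 * ε) * c ^ 3 := by
    have hb : 1 - 6 * δ ≤ (1 - δ) ^ 6 := by
      have := one_add_mul_le_pow (a := -δ) (by linarith) 6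
      have e : (1 + -δ) ^ 6 = (1 - δ) ^ 6 := by ring
      rw [e] at this
      push_cast at this
      linarith
    have hcb : c ^ 3 = (1 - δ) ^ 6 := by rw [hc]; ring
    rw [hcb]
    calc (1 : ℝ) = (1 + 2 * ε) * (1 - 6 * δ) := by linarith [hδ6]
      _ ≤ (1 + 2 * ε) * (1 - δ) ^ 6 := mul_le_mul_of_nonneg_left hb (by linarith)
  filter_upwards [e1, e2, eventually_ge_atTop (m₀ + 3)] with m g1 g2 hm
  have g3 := e4 m hm
  have g4 : (D : ℝ) ^ q * (2 * c ^ 3 * a m) ≤ (D : ℝ) ^ q * t m := by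
    calc (D : ℝ) ^ q * (2 * c ^ 3 * a m)
        = c ^ 2 * (c * (D : ℝ) ^ q * a m + c * (D : ℝ) ^ q * a m) := by ring
      _ ≤ c ^ 2 * t (m + q) := mul_le_mul_of_nonneg_left (by linarith) (by positivity)
      _ ≤ _ := g3
  have g5 : 2 * c ^ 3 * a m ≤ t m := le_of_mul_le_mul_left g4 (by positivity)
  calc (a m : ℝ) = 1 * a m := (one_mul _).symm
    _ ≤ ((1 + 2 * ε) * c ^ 3) * a m := mul_le_mul_of_nonneg_right hc3 (haR m).le
    _ = (1 / 2 + ε) * (2 * c ^ 3 * a m) := by ring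
    _ ≤ (1 / 2 + ε) * t m := mul_le_mul_of_nonneg_left g5 (by linarith)

end Pool.Agent.K4H10.ZO
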