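import Mathlib

/-!
# Zero-one law: leading terms
-/

namespace Pool.Agent.K4H10.ZO

open Module

variable {K : Type*} [Field K] {H : Type*} [AddCommGroup H] [Module K H]
  {J : Type*} [Fintype J] [DecidableEq J] {Λ : Type*} [LinearOrder Λ]

open Classical in
/-- The leading (smallest) indices of the elements of the subspace `U`. -/
noncomputable def lead (B : Basis J K H) (key : J → Λ) (U : Submodule K H) : Finset J :=
  Finset.univ.filter fun j => ∃ x ∈ U, B.repr x j ≠ 0 ∧ ∀ i, key i < key j → B.repr x i = 0

lemma mem_lead {B : Basis J K H} {key : J → Λ} {U : Submodule K H} {j : J} :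
    j ∈ lead B key U ↔ ∃ x ∈ U, B.repr x j ≠ 0 ∧ ∀ i, key i < key j → B.repr x i = 0 := by
  simp [lead]

lemma exists_lead (B : Basis J K H) (key : J → Λ) (hk : Function.Injective key) {x : H}
    (hx : x ≠ 0) : ∃ j, B.repr x j ≠ 0 ∧ ∀ i, key i < key j → B.repr x i = 0 := by
  classical
  have hne : (Finset.univ.filter fun j => B.repr x j ≠ 0).Nonempty := by
    by_contra h
    rw [Finset.not_nonempty_iff_eq_empty, Finset.filter_eq_empty_iff] at h
    apply hx
    apply B.repr.injective
    ext j
    have := h (Finset.mem_univ j)
    simpa using this
  obtain ⟨j, hj, hmin⟩ := Finset.exists_min_image _ key hne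
  rw [Finset.mem_filter] at hj
  refine ⟨j, hj.2, fun i hi => ?_⟩
  by_contra h
  exact absurd (hmin i (by simp [h])) (not_le.mpr hi)

/-- The dimension of a subspace is the number of its leading indices. -/
theorem card_lead (B : Basis J K H) (key : J → Λ) (hk : Function.Injective key)
    (U : Submodule K H) : (lead B key U).card = finrank K U := by
  classical
  haveI : FiniteDimensional K H := Module.Finite.of_basis B
  apply le_antisymm
  · choose! x hxU hx hx0 using fun (j : J) (h : j ∈ lead B key U) => mem_lead.mp h
    have hli : LinearIndependent K (fun j : lead B key U => (⟨x j, hxU j j.2⟩ : U)) := by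
      rw [Fintype.linearIndependent_iff]
      intro g hg
      have hsum : ∑ i, g i • x i = 0 := by
        have := congrArg Subtype.val hg
        simpa using this
      have key2 : ∀ l : Λ, ∀ j : lead B key U, key j = l → g j = 0 := by
        by_contra hcon
        push Not at hcon
        have hne : (Finset.univ.filter fun j : lead B key U => g j ≠ 0).Nonempty := by
          obtain ⟨l, j, -, hj⟩ := hcon
          exact ⟨j, by simp [hj]⟩
        obtain ⟨j, hj, hmin⟩ := Finset.exists_min_image _ (fun j : lead B key U => key j) hne
        rw [Finset.mem_filter] at hj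
        have h1 : B.repr (∑ i, g i • x i) j = 0 := by rw [hsum]; simp
        rw [map_sum, Finsupp.finsetSum_apply, Finset.sum_eq_single j] at h1
        · rw [map_smul, Finsupp.smul_apply, smul_eq_mul] at h1
          rcases mul_eq_zero.mp h1 with h | h
          · exact hj.2 h
          · exact hx j j.2 h
        · intro i _ hij
          rw [map_smul, Finsupp.smul_apply, smul_eq_mul]
          by_cases hgi : g i = 0
          · rw [hgi, zero_mul]
          · have h2 := hmin i (by simp [hgi])
            have h3 : key j < key i := lt_of_le_of_ne h2 fun h => hij (Subtype.ext (hk h.symm))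
            rw [hx0 i i.2 j h3, mul_zero]
        · intro h; exact absurd (Finset.mem_univ _) h
      exact fun j => key2 _ j rfl
    have := hli.fintype_card_le_finrank
    simpa using this
  · let f : U →ₗ[K] (lead B key U → K) :=
      LinearMap.pi fun j => (Finsupp.lapply (j : J)) ∘ₗ B.repr.toLinearMap ∘ₗ U.subtype
    have hf : Function.Injective f := by
      rw [← LinearMap.ker_eq_bot, LinearMap.ker_eq_bot']
      intro x hx
      by_contra hne
      obtain ⟨j, hj, hj'⟩ := exists_lead B key hk (x := (x : H))
        (fun h => hne (Subtype.ext h))
      have hmem : j ∈ lead B key U := mem_lead.mpr ⟨x, x.2, hj, hj'⟩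
      have := congrFun hx ⟨j, hmem⟩
      exact hj this
    have := LinearMap.finrank_le_finrank_of_injective hf
    simpa using this

end Pool.Agent.K4H10.ZO
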