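import Pool.Agent.K4H10.ZO.Ins
import Pool.Agent.K4H10.ZO.Lead

/-!
# Insertion of a vector into a space of functions on words
-/

namespace Pool.Agent.K4H10.ZO

open Module

section Words

variable {K : Type*} [Field K] {ι : Type*} [Fintype ι] [DecidableEq ι]

/-- The words as elements of a linearly ordered type. -/
noncomputable def wkey (ι : Type*) [Fintype ι] (n : ℕ) (w : Fin n → ι) :
    Lex (Fin n → Fin (Fintype.card ι)) :=
  toLex fun i => Fintype.equivFin ι (w i)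

lemma wkey_injective (n : ℕ) : Function.Injective (wkey ι n) := by
  intro w w' h
  funext i
  have := congrFun (toLex.injective h) i
  exact (Fintype.equivFin ι).injective this

lemma exists_pos {m q : ℕ} {p : Fin q → Fin (m + q)} {c : Fin m → Fin (m + q)}
    (hp : Function.Injective p) (hc : Function.Injective c) (hd : ∀ i j, p i ≠ c j)
    (t : Fin (m + q)) : (∃ i, c i = t) ∨ ∃ i, p i = t := by
  have hinj : Function.Injective (Sum.elim c p) := by
    rintro (a | a) (b | b) h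
    · exact congrArg _ (hc h)
    · exact absurd h.symm (hd b a)
    · exact absurd h (hd a b)
    · exact congrArg _ (hp h)
  have hbij : Function.Bijective (Sum.elim c p) := by
    rw [Fintype.bijective_iff_injective_and_card]
    exact ⟨hinj, by simp⟩
  obtain ⟨s | s, hs⟩ := hbij.2 t
  · exact Or.inl ⟨s, hs⟩
  · exact Or.inr ⟨s, hs⟩

/-- **Insertion.** If the products, with nonzero factors `s V`, of the elements of `U` and `Z` placed
at arbitrary positions lie in `R`, then the dimension of `R` is at least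
`(1 - ε) D ^ q (dim U - C κ ^ m D ^ m)`. -/
theorem count_words [Nonempty ι] (q : ℕ) (hq : 0 < q) (ε : ℝ) (hε : 0 < ε) (hε1 : ε < 1) :
    ∃ C κ : ℝ, 0 ≤ C ∧ 0 < κ ∧ κ < 1 ∧ ∀ (m : ℕ) (U : Submodule K ((Fin m → ι) → K))
      (Z : Submodule K ((Fin q → ι) → K)) (R : Submodule K ((Fin (m + q) → ι) → K)), Z ≠ ⊥ →
      (∀ (p : Fin q ↪o Fin (m + q)) (c : Fin m ↪o Fin (m + q)), (∀ i j, p i ≠ c j) →
        ∃ s : (Fin (m + q) → ι) → K, (∀ V, s V ≠ 0) ∧ ∀ x ∈ U, ∀ z ∈ Z,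
          (fun V => s V * (x (V ∘ c) * z (V ∘ p))) ∈ R) →
      (1 - ε) * (Fintype.card ι : ℝ) ^ q *
        ((finrank K U : ℝ) - C * κ ^ m * (Fintype.card ι : ℝ) ^ m) ≤ (finrank K R : ℝ) := by
  classical
  obtain ⟨C, κ, hC, hκ, hκ1, hmain⟩ := taskA (ι := ι) q hq ε hε hε1
  refine ⟨C, κ, hC, hκ, hκ1, fun m U Z R hZ hR => ?_⟩
  obtain ⟨z, hz, hz0⟩ := Submodule.exists_mem_ne_zero_of_ne_bot hZ
  let Bm := Pi.basisFun K (Fin m → ι)
  let Bq := Pi.basisFun K (Fin q → ι)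
  let B := Pi.basisFun K (Fin (m + q) → ι)
  obtain ⟨u, hu, hu'⟩ := exists_lead Bq (wkey ι q) (wkey_injective q) hz0
  have h := hmain m (lead Bm (wkey ι m) U) u (lead B (wkey ι (m + q)) R) (by
    intro p c hd w hw hw'
    obtain ⟨s, hs, hsR⟩ := hR p c hd
    obtain ⟨x, hx, hx0, hx1⟩ := mem_lead.mp hw'
    refine mem_lead.mpr ⟨_, hsR x hx z hz, ?_, ?_⟩
    · change s w * (x (w ∘ c) * z (w ∘ p)) ≠ 0
      have h1 : x (w ∘ c) ≠ 0 := hx0
      have h2 : z (w ∘ p) ≠ 0 := by rw [hw]; exact hu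
      exact mul_ne_zero (hs w) (mul_ne_zero h1 h2)
    · intro V hV
      change s V * (x (V ∘ c) * z (V ∘ p)) = 0
      obtain ⟨t, ht1, ht2⟩ := hV
      rcases exists_pos p.injective c.injective hd t with ⟨i, rfl⟩ | ⟨i, rfl⟩
      · have h1 : x (V ∘ c) = 0 :=
          hx1 (V ∘ c) ⟨i, fun j hj => ht1 (c j) (c.strictMono hj), ht2⟩
        rw [h1, zero_mul, mul_zero]
      · have h1 : z (V ∘ p) = 0 := by
          apply hu' (V ∘ p)
          rw [← hw]
          exact ⟨i, fun j hj => ht1 (p j) (p.strictMono hj), ht2⟩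
        rw [h1, mul_zero, mul_zero])
  rw [card_lead Bm (wkey ι m) (wkey_injective m) U,
    card_lead B (wkey ι (m + q)) (wkey_injective (m + q)) R] at h
  exact h

/-- The same with the number of letters given up to an equality. -/
theorem count_words' (K : Type*) [Field K] (ι : Type*) [Fintype ι] [DecidableEq ι] [Nonempty ι]
    (q : ℕ) (hq : 0 < q) (ε : ℝ) (hε : 0 < ε) (hε1 : ε < 1) :
    ∃ C κ : ℝ, 0 ≤ C ∧ 0 < κ ∧ κ < 1 ∧ ∀ (m N : ℕ) (_ : N = m + q)
      (U : Submodule K ((Fin m → ι) → K))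
      (Z : Submodule K ((Fin q → ι) → K)) (R : Submodule K ((Fin N → ι) → K)), Z ≠ ⊥ →
      (∀ (p : Fin q ↪o Fin N) (c : Fin m ↪o Fin N), (∀ i j, p i ≠ c j) →
        ∃ s : (Fin N → ι) → K, (∀ V, s V ≠ 0) ∧ ∀ x ∈ U, ∀ z ∈ Z,
          (fun V => s V * (x (V ∘ c) * z (V ∘ p))) ∈ R) →
      (1 - ε) * (Fintype.card ι : ℝ) ^ q *
        ((finrank K U : ℝ) - C * κ ^ m * (Fintype.card ι : ℝ) ^ m) ≤ (finrank K R : ℝ) := by
  obtain ⟨C, κ, hC, hκ, hκ1, h⟩ := count_words (K := K) (ι := ι) q hq ε hε hε1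
  refine ⟨C, κ, hC, hκ, hκ1, ?_⟩
  rintro m N rfl U Z R hZ hR
  exact h m U Z R hZ hR

end Words

end Pool.Agent.K4H10.ZO
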