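import Pool.Agent.K4H54.PL.Gap
import Pool.Agent.K4H10.ZO.InsW
import Pool.Agent.K4H10.ZO.Half

/-!
# The majority law for systems of tensors

`H m` and `H' m` are spaces of tensors and of forms of degree `m` which are dual to each other, and
`B m`, `B' m` are subspaces which are closed under products, contractions and signed permutations
of the factors. If `B n` is not equal to `H n` for one `n`, then asymptotically the dimension of
`B m` is at most half of the dimension of `H m`.
-/

namespace Pool.Agent.K4H10.ZO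

open Module Matrix Pool.Agent.K4H54.PL

section Perm

variable {k : Type} [Field k] {ι : Type}

/-- A signed permutation of the factors, acting on tensors. -/
def act {N : ℕ} (s : (Fin N → ι) → k) (τ : Equiv.Perm (Fin N)) (x : T k ι N) : T k ι N :=
  fun V => s V * x (V ∘ τ)

/-- A signed permutation of the factors, acting on forms. -/
def actR {N : ℕ} (s : (Fin N → ι) → k) (τ : Equiv.Perm (Fin N)) (φ : T k ι N) : T k ι N :=
  fun V => s (V ∘ τ.symm) * φ (V ∘ τ.symm)

lemma actR_dot [Fintype ι] {N : ℕ} (s : (Fin N → ι) → k) (τ : Equiv.Perm (Fin N))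
    (φ x : T k ι N) : actR s τ φ ⬝ᵥ x = φ ⬝ᵥ act s τ x := by
  unfold dotProduct actR act
  refine Fintype.sum_equiv (Equiv.arrowCongr τ (Equiv.refl ι)) _ _ fun V => ?_
  have e1 : ((Equiv.arrowCongr τ (Equiv.refl ι)) V) = V ∘ τ.symm := rfl
  have e2 : (V ∘ τ.symm) ∘ τ = V := by
    funext i
    simp
  rw [e1, e2]
  ring

/-- The permutation which places the first `a` letters at the positions `f` and the last `b` letters
at the positions `g`. -/
lemma exists_plc {a b : ℕ} {f : Fin a → Fin (a + b)} {g : Fin b → Fin (a + b)}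
    (hf : Function.Injective f) (hg : Function.Injective g) (hd : ∀ i j, f i ≠ g j) :
    ∃ τ : Equiv.Perm (Fin (a + b)), (∀ i, τ (Fin.castAdd b i) = f i) ∧
      ∀ j, τ (Fin.natAdd a j) = g j := by
  let F : Fin (a + b) → Fin (a + b) := Fin.addCases f g
  have hF1 : ∀ i, F (Fin.castAdd b i) = f i := fun i => Fin.addCases_left i
  have hF2 : ∀ j, F (Fin.natAdd a j) = g j := fun j => Fin.addCases_right j
  have hinj : Function.Injective F := by
    intro x y h
    induction x using Fin.addCases with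
    | left x =>
      induction y using Fin.addCases with
      | left y => rw [hF1, hF1] at h; rw [hf h]
      | right y =>
        rw [hF1, hF2] at h
        exact absurd h (hd x y)
    | right x =>
      induction y using Fin.addCases with
      | left y =>
        rw [hF2, hF1] at h
        exact absurd h.symm (hd y x)
      | right y => rw [hF2, hF2] at h; rw [hg h]
  exact ⟨Equiv.ofBijective F (Finite.injective_iff_bijective.mp hinj), hF1, hF2⟩

end Perm

section Main

variable {k : Type} [Field k] {ι : Type} [Fintype ι] [DecidableEq ι]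

/-- A form in the dual system which vanishes on the subsystem. -/
lemma exists_ann {n : ℕ} {H H' B : Submodule k (T k ι n)} (hBH : B ≤ H)
    (hnd' : ∀ x ∈ H, (∀ φ ∈ H', x ⬝ᵥ φ = 0) → x = 0) (hn : B ≠ H) :
    ∃ φ ∈ H', φ ≠ 0 ∧ ∀ b ∈ B, φ ⬝ᵥ b = 0 := by
  have hlt : finrank k B < finrank k H := Submodule.finrank_lt_finrank_of_lt
    (lt_of_le_of_ne hBH hn)
  have hle : finrank k H ≤ finrank k H' := by
    have h1 := finrank_add_le (H := H') (A := H) (B := ⊥) bot_le
      (fun x hx h => hnd' x hx h) (fun x _ b hb => by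
        rw [(Submodule.mem_bot k).1 hb, dotProduct_zero])
    rw [finrank_bot] at h1
    exact h1
  let f : H' →ₗ[k] Dual k B :=
    { toFun := fun φ =>
        { toFun := fun x => (φ : T k ι n) ⬝ᵥ (x : T k ι n)
          map_add' := fun x y => dotProduct_add _ _ _
          map_smul' := fun c x => by
            rw [RingHom.id_apply]
            exact dotProduct_smul c _ _ }
      map_add' := fun φ ψ => by
        ext x
        exact add_dotProduct _ _ _
      map_smul' := fun c φ => by
        ext x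
        exact smul_dotProduct c _ _ }
  have h1 : LinearMap.ker f ≠ ⊥ := by
    refine LinearMap.ker_ne_bot_of_finrank_lt ?_
    rw [Subspace.dual_finrank_eq]
    omega
  obtain ⟨φ, hφ, hφ0⟩ := Submodule.exists_mem_ne_zero_of_ne_bot h1
  refine ⟨φ, φ.2, fun h => hφ0 (Subtype.ext h), fun b hb => ?_⟩
  exact LinearMap.congr_fun (LinearMap.mem_ker.1 hφ) ⟨b, hb⟩

/-- The forms in `H'` which vanish on `B`. -/
def ann {N : ℕ} (H' B : Submodule k (T k ι N)) : Submodule k (T k ι N) where
  carrier := {φ | φ ∈ H' ∧ ∀ b ∈ B, φ ⬝ᵥ b = 0}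
  add_mem' := by
    rintro a b ⟨ha, ha'⟩ ⟨hb, hb'⟩
    exact ⟨add_mem ha hb, fun x hx => by rw [add_dotProduct, ha' x hx, hb' x hx, add_zero]⟩
  zero_mem' := ⟨zero_mem _, fun x _ => zero_dotProduct _⟩
  smul_mem' := by
    rintro c a ⟨ha, ha'⟩
    exact ⟨Submodule.smul_mem _ c ha, fun x hx => by rw [smul_dotProduct, ha' x hx, smul_zero]⟩

/-- Signed insertion for a system which is closed under products and signed permutations. -/
lemma ins_mem {B : ∀ m, Submodule k (T k ι m)}
    (hten : ∀ m n, ∀ x ∈ B m, ∀ y ∈ B n, ten x y ∈ B (m + n))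
    (hperm : ∀ (N : ℕ) (τ : Equiv.Perm (Fin N)), ∃ s : (Fin N → ι) → k, (∀ V, s V ≠ 0) ∧
      ∀ b ∈ B N, act s τ b ∈ B N) {m q : ℕ} (p : Fin q ↪o Fin (m + q)) (c : Fin m ↪o Fin (m + q))
    (hd : ∀ i j, p i ≠ c j) :
    ∃ s : (Fin (m + q) → ι) → k, (∀ V, s V ≠ 0) ∧ ∀ x ∈ B m, ∀ z ∈ B q,
      (fun V => s V * (x (V ∘ c) * z (V ∘ p))) ∈ B (m + q) := by
  obtain ⟨τ, h1, h2⟩ := exists_plc (a := m) (b := q) c.injective p.injective
    (fun i j h => hd j i h.symm)
  obtain ⟨s, hs, hsB⟩ := hperm (m + q) τ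
  refine ⟨s, hs, fun x hx z hz => ?_⟩
  have h3 := hsB _ (hten m q x hx z hz)
  have h4 : act s τ (ten x z) = fun V => s V * (x (V ∘ c) * z (V ∘ p)) := by
    funext V
    unfold act ten
    congr 2
    · congr 1
      funext i
      simp [h1]
    · congr 1
      funext i
      simp [h2]
  rw [h4] at h3
  exact h3

/-- **The majority law for systems of tensors.** -/
theorem half {H H' B B' : ∀ m, Submodule k (T k ι m)} (hBH : ∀ m, B m ≤ H m)
    (hnd : ∀ m, ∀ φ ∈ H' m, (∀ x ∈ H m, φ ⬝ᵥ x = 0) → φ = 0)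
    (hnd' : ∀ m, ∀ x ∈ H m, (∀ φ ∈ H' m, x ⬝ᵥ φ = 0) → x = 0)
    (hten : ∀ n m, ∀ φ ∈ H' n, ∀ ψ ∈ B' m, ten φ ψ ∈ H' (n + m))
    (hctr : ∀ n m, ∀ b ∈ B (n + m), ∀ ψ ∈ B' m, ctr b ψ ∈ B n)
    (hdim : ∀ m, finrank k (B m) ≤ finrank k (B' m))
    (hBten : ∀ m n, ∀ x ∈ B m, ∀ y ∈ B n, ten x y ∈ B (m + n))
    (hHten : ∀ m n, ∀ x ∈ H m, ∀ y ∈ H n, ten x y ∈ H (m + n))
    (hperm : ∀ (N : ℕ) (τ : Equiv.Perm (Fin N)), ∃ s : (Fin N → ι) → k, (∀ V, s V ≠ 0) ∧
      (∀ b ∈ B N, act s τ b ∈ B N) ∧ (∀ b ∈ H N, act s τ b ∈ H N) ∧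
      ∀ φ ∈ H' N, actR s τ φ ∈ H' N)
    (hB0 : B 0 ≠ ⊥) {v : T k ι 1} (hv : v ∈ B 1) (hv0 : v ≠ 0)
    (hlog : ∀ j ≥ 1, finrank k (H (2 * j + 2)) ^ 2 ≤ finrank k (H (2 * j)) * finrank k (H (2 * j + 4)))
    (hlow : ∀ j ≥ 1, Fintype.card ι ^ (2 * j) ≤
      finrank k (B (2 * j)) * (j + 1) ^ (Fintype.card ι ^ 2))
    {n : ℕ} (hn : B n ≠ H n) (ε : ℝ) (hε : 0 < ε) :
    ∀ᶠ m : ℕ in Filter.atTop, (finrank k (B m) : ℝ) ≤ (1 / 2 + ε) * (finrank k (H m) : ℝ) := by
  classical
  have hcardT : ∀ m, finrank k (T k ι m) = Fintype.card ι ^ m := by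
    intro m
    rw [finrank_pi, Fintype.card_fun, Fintype.card_fin]
  haveI hne : Nonempty ι := by
    by_contra h
    rw [not_nonempty_iff] at h
    apply hv0
    funext V
    exact (IsEmpty.false (V 0)).elim
  have hD : 0 < Fintype.card ι := Fintype.card_pos
  -- the case `n = 0`
  obtain ⟨φ, hφ, hφ0, hφB⟩ := exists_ann (hBH n) (hnd' n) hn
  have hmono : ∀ {G : ∀ m, Submodule k (T k ι m)},
      (∀ m, ∀ x ∈ G m, ten x v ∈ G (m + 1)) → ∀ m, finrank k (G m) ≤ finrank k (G (m + 1)) := by
    intro G hG m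
    obtain ⟨V, hV⟩ : ∃ V, v V ≠ 0 := by
      by_contra h
      push Not at h
      exact hv0 (funext h)
    have hinj : Function.Injective (tenR (k := k) v m) := by
      rw [injective_iff_map_eq_zero]
      intro z hz
      funext U
      have h1 := congrFun hz (Fin.append U V)
      change z (fun i => Fin.append U V (Fin.castAdd 1 i)) *
        v (fun i => Fin.append U V (Fin.natAdd m i)) = 0 at h1
      have h2 : (fun i => Fin.append U V (Fin.castAdd 1 i)) = U := by
        funext i; exact Fin.append_left U V i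
      have h3 : (fun i => Fin.append U V (Fin.natAdd m i)) = V := by
        funext i; exact Fin.append_right U V i
      rw [h2, h3] at h1
      exact (mul_eq_zero.mp h1).resolve_right hV
    have h1 : finrank k (G m) = finrank k ((G m).map (tenR v m)) :=
      LinearEquiv.finrank_eq (Submodule.equivMapOfInjective _ hinj _)
    rw [h1]
    apply Submodule.finrank_mono
    rintro _ ⟨x, hx, rfl⟩
    exact hG m x hx
  have hBmono := hmono (G := B) fun m x hx => hBten m 1 x hx v hv
  have hHmono := hmono (G := H) fun m x hx => hHten m 1 x hx v (hBH 1 hv)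
  have hBpos : ∀ m, 0 < finrank k (B m) := by
    intro m
    induction m with
    | zero =>
      rw [Module.finrank_pos_iff]
      exact Submodule.nontrivial_iff_ne_bot.mpr hB0
    | succ m ih => exact ih.trans_le (hBmono m)
  -- an index `q ≥ 1`
  obtain ⟨q, hq, φ, hφ, hφ0, hφB⟩ : ∃ q, 0 < q ∧ ∃ φ ∈ H' q, φ ≠ 0 ∧ ∀ b ∈ B q, φ ⬝ᵥ b = 0 := by
    rcases Nat.eq_zero_or_pos n with rfl | hpos
    · exfalso
      apply hn
      apply le_antisymm (hBH 0)
      have h1 : finrank k (H 0) ≤ finrank k (B 0) := by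
        have h2 := hBpos 0
        have h3 : finrank k (H 0) ≤ 1 := by
          have := Submodule.finrank_le (H 0)
          rw [hcardT, pow_zero] at this
          exact this
        omega
      exact (Submodule.eq_of_le_of_finrank_le (hBH 0) h1).ge
    · exact ⟨n, hpos, φ, hφ, hφ0, hφB⟩
  refine taskF (Fintype.card ι) q hD hq (fun m => finrank k (B m)) (fun m => finrank k (H m))
    (fun m => Submodule.finrank_mono (hBH m)) (fun m => (Submodule.finrank_le _).trans_eq (hcardT m))
    hBpos hlow hlog (fun m _ => hBmono m) (fun m _ => hHmono m) ?_ ?_ ?_ ε hε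
  · intro ε hε hε1
    obtain ⟨C, κ, hC, hκ, hκ1, h⟩ := count_words' k ι q hq ε hε hε1
    refine ⟨C, κ, hC, hκ, hκ1, fun m _ => ?_⟩
    have h1 := h m (q + m) (Nat.add_comm q m) (B' m) (ann (H' q) (B q))
      (ann (H' (q + m)) (B (q + m))) (by
        intro hbot
        apply hφ0
        have : φ ∈ ann (H' q) (B q) := ⟨hφ, hφB⟩
        rw [hbot, Submodule.mem_bot] at this
        exact this) (by
        intro p c hd
        obtain ⟨τ, h1, h2⟩ := exists_plc (a := q) (b := m) p.injective c.injective hd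
        obtain ⟨s, hs, hsB, -, hsH⟩ := hperm (q + m) τ.symm
        refine ⟨fun V => s (V ∘ τ), fun V => hs _, fun ψ hψ φ hφ => ?_⟩
        have h3 : actR s τ.symm (ten φ ψ) = fun V => s (V ∘ τ) * (ψ (V ∘ c) * φ (V ∘ p)) := by
          funext V
          unfold actR ten
          rw [Equiv.symm_symm, mul_comm (ψ _)]
          congr 2
          · congr 1
            funext i
            simp [h1]
          · congr 1
            funext i
            simp [h2]
        rw [← h3]
        refine ⟨hsH _ (hten q m φ hφ.1 ψ hψ), fun b hb => ?_⟩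
        rw [actR_dot, dot_ten]
        exact hφ.2 _ (hctr q m _ (hsB b hb) ψ hψ))
    have h2 := finrank_add_le (H := H (q + m)) (A := ann (H' (q + m)) (B (q + m)))
      (B := B (q + m)) (hBH _) (fun χ hχ hχ' => hnd (q + m) χ hχ.1 hχ') (fun χ hχ b hb => hχ.2 b hb)
    have h3 : (finrank k (ann (H' (q + m)) (B (q + m))) : ℝ) + finrank k (B (q + m)) ≤
        finrank k (H (q + m)) := by exact_mod_cast h2
    have h4 : (finrank k (B m) : ℝ) ≤ finrank k (B' m) := by exact_mod_cast hdim m
    rw [Nat.add_comm m q]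
    have h5 : (1 - ε) * (Fintype.card ι : ℝ) ^ q *
        ((finrank k (B m) : ℝ) - C * κ ^ m * (Fintype.card ι : ℝ) ^ m) ≤
        (1 - ε) * (Fintype.card ι : ℝ) ^ q *
        ((finrank k (B' m) : ℝ) - C * κ ^ m * (Fintype.card ι : ℝ) ^ m) := by
      have h6 : 0 ≤ (1 - ε) * (Fintype.card ι : ℝ) ^ q :=
        mul_nonneg (by linarith) (by positivity)
      apply mul_le_mul_of_nonneg_left _ h6
      linarith
    linarith
  · intro ε hε hε1
    obtain ⟨C, κ, hC, hκ, hκ1, h⟩ := count_words' k ι q hq ε hε hε1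
    refine ⟨C, κ, hC, hκ, hκ1, fun m _ => ?_⟩
    refine h m (m + q) rfl (B m) (B q) (B (m + q)) ?_ ?_
    · intro hbot
      have := hBpos q
      rw [hbot, finrank_bot] at this
      omega
    · intro p c hd
      exact ins_mem hBten (fun N τ => by
        obtain ⟨s, hs, h1, -, -⟩ := hperm N τ
        exact ⟨s, hs, h1⟩) p c hd
  · intro ε hε hε1
    obtain ⟨C, κ, hC, hκ, hκ1, h⟩ := count_words' k ι 1 Nat.one_pos ε hε hε1
    refine ⟨C, κ, hC, hκ, hκ1, fun m _ => ?_⟩
    refine h m (m + 1) rfl (H m) (H 1) (H (m + 1)) ?_ ?_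
    · intro hbot
      apply hv0
      have := hBH 1 hv
      rw [hbot, Submodule.mem_bot] at this
      exact this
    · intro p c hd
      exact ins_mem hHten (fun N τ => by
        obtain ⟨s, hs, -, h1, -⟩ := hperm N τ
        exact ⟨s, hs, h1⟩) p c hd

end Main

end Pool.Agent.K4H10.ZO
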