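import Mathlib

/-!
# Zero-one law, task B: rank of signed permutation operators on words
-/

namespace Pool.Agent.K4H10.ZO

open Finset BigOperators

section PermRank

/-- `rank ≥ trace² / trace of the square` for Gram matrices. -/
theorem trace_rank {E : Type*} [NormedAddCommGroup E] [InnerProductSpace ℝ E]
    [FiniteDimensional ℝ E] {σ : Type*} [Fintype σ] (x : σ → E) :
    (∑ i, ‖x i‖ ^ 2) ^ 2 ≤ (Module.finrank ℝ (Submodule.span ℝ (Set.range x)) : ℝ) *
      ∑ i, ∑ j, (inner ℝ (x i) (x j)) ^ 2 := by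
  classical
  set S := Submodule.span ℝ (Set.range x) with hS
  let b := stdOrthonormalBasis ℝ S
  let y : σ → S := fun i => ⟨x i, Submodule.subset_span ⟨i, rfl⟩⟩
  let c : σ → Fin (Module.finrank ℝ S) → ℝ := fun i l => inner ℝ (y i) (b l)
  have hin : ∀ i j, inner ℝ (x i) (x j) = ∑ l, c i l * c j l := by
    intro i j
    have h1 : inner ℝ (x i) (x j) = inner ℝ (y i) (y j) := rfl
    rw [h1, ← b.sum_inner_mul_inner (y i) (y j)]
    refine Finset.sum_congr rfl fun l _ => ?_
    rw [real_inner_comm (y j) (b l)]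
  have hnorm : ∀ i, ‖x i‖ ^ 2 = ∑ l, c i l ^ 2 := by
    intro i
    rw [← real_inner_self_eq_norm_sq, hin i i]
    exact Finset.sum_congr rfl fun l _ => by ring
  let q : Fin (Module.finrank ℝ S) → ℝ := fun l => ∑ i, c i l ^ 2
  have h1 : ∑ i, ‖x i‖ ^ 2 = ∑ l, q l := by
    simp_rw [hnorm]
    rw [Finset.sum_comm]
  have h2 : ∑ l, q l ^ 2 ≤ ∑ i, ∑ j, (inner ℝ (x i) (x j)) ^ 2 := by
    have h3 : ∑ i, ∑ j, (inner ℝ (x i) (x j)) ^ 2 =
        ∑ l, ∑ l', (∑ i, c i l * c i l') ^ 2 := by
      simp_rw [hin]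
      have h4 : ∀ i j, (∑ l, c i l * c j l) ^ 2 = ∑ l, ∑ l', (c i l * c i l') * (c j l * c j l') := by
        intro i j
        rw [sq, Finset.sum_mul_sum]
        refine Finset.sum_congr rfl fun l _ => Finset.sum_congr rfl fun l' _ => by ring
      have h5 : ∀ l l', (∑ i, c i l * c i l') ^ 2 = ∑ i, ∑ j, (c i l * c i l') * (c j l * c j l') := by
        intro l l'
        rw [sq, Finset.sum_mul_sum]
      simp_rw [h4, h5]
      calc ∑ i, ∑ j, ∑ l, ∑ l', (c i l * c i l') * (c j l * c j l')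
          = ∑ i, ∑ l, ∑ j, ∑ l', (c i l * c i l') * (c j l * c j l') :=
            Finset.sum_congr rfl fun i _ => Finset.sum_comm
        _ = ∑ l, ∑ i, ∑ j, ∑ l', (c i l * c i l') * (c j l * c j l') := Finset.sum_comm
        _ = ∑ l, ∑ i, ∑ l', ∑ j, (c i l * c i l') * (c j l * c j l') :=
            Finset.sum_congr rfl fun l _ => Finset.sum_congr rfl fun i _ => Finset.sum_comm
        _ = ∑ l, ∑ l', ∑ i, ∑ j, (c i l * c i l') * (c j l * c j l') :=
            Finset.sum_congr rfl fun l _ => Finset.sum_comm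
    rw [h3]
    refine Finset.sum_le_sum fun l _ => ?_
    have h6 : q l ^ 2 = (∑ i, c i l * c i l) ^ 2 := by
      simp only [q]
      congr 1
      exact Finset.sum_congr rfl fun i _ => by ring
    rw [h6]
    exact Finset.single_le_sum (f := fun l' => (∑ i, c i l * c i l') ^ 2)
      (fun l' _ => sq_nonneg _) (Finset.mem_univ l)
  rw [h1]
  have h7 := sq_sum_le_card_mul_sum_sq (s := (Finset.univ : Finset (Fin (Module.finrank ℝ S))))
    (f := q)
  simp only [Finset.card_univ, Fintype.card_fin] at h7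
  refine h7.trans ?_
  exact mul_le_mul_of_nonneg_left h2 (Nat.cast_nonneg _)

/-- The rank of an integer matrix over the reals is at most the rank over any field of
characteristic zero. -/
theorem finrank_compare {K : Type*} [Field K] [CharZero K] {σ W : Type*} [Fintype σ] [Fintype W]
    (z : σ → W → ℤ) :
    Module.finrank ℝ (Submodule.span ℝ (Set.range fun i => fun w => ((z i w : ℤ) : ℝ))) ≤
      Module.finrank K (Submodule.span K (Set.range fun i => fun w => ((z i w : ℤ) : K))) := by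
  classical
  obtain ⟨κ, a, ha, hspan, hli⟩ := exists_linearIndependent' ℝ
    (fun i => fun w => ((z i w : ℤ) : ℝ))
  haveI : Fintype κ := Fintype.ofInjective a ha
  rw [← hspan, finrank_span_eq_card hli]
  have h1 : LinearIndependent ℤ (fun j => z (a j)) := by
    have h2 := (linearIndependent_algebraMap_comp_iff (R := ℤ) (S := ℝ)
      (v := fun j => z (a j))).1
    apply h2
    exact hli
  have h3 : LinearIndependent K (fun j => fun w => ((z (a j) w : ℤ) : K)) := by
    have h4 := (linearIndependent_algebraMap_comp_iff (R := ℤ) (S := K)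
      (v := fun j => z (a j))).2 h1
    exact h4
  rw [← finrank_span_eq_card h3]
  refine Submodule.finrank_mono (Submodule.span_mono ?_)
  rintro _ ⟨j, rfl⟩
  exact ⟨a j, rfl⟩

section Count

variable {α : Type*} [Fintype α] [DecidableEq α] {k : ℕ}

/-- Number of occurrences of each letter. -/
def cnt (u : Fin k → α) : α → Fin (k + 1) := fun a =>
  ⟨((univ : Finset (Fin k)).filter (fun i => u i = a)).card, by
    have := Finset.card_filter_le (univ : Finset (Fin k)) (fun i => u i = a)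
    simp only [Finset.card_univ, Fintype.card_fin] at this
    omega⟩

theorem cnt_perm (u u' : Fin k → α) (h : cnt u = cnt u') :
    ∃ π : Equiv.Perm (Fin k), u = u' ∘ π := by
  have h1 : ∀ a, Fintype.card {i // u i = a} = Fintype.card {i // u' i = a} := by
    intro a
    have h2 := congrArg Fin.val (congrFun h a)
    simp only [cnt] at h2
    rw [Fintype.card_subtype, Fintype.card_subtype]
    exact h2
  let e : ∀ a, {i // u i = a} ≃ {i // u' i = a} := fun a => Fintype.equivOfCardEq (h1 a)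
  let π : Equiv.Perm (Fin k) := (Equiv.sigmaFiberEquiv u).symm.trans
    ((Equiv.sigmaCongrRight e).trans (Equiv.sigmaFiberEquiv u'))
  refine ⟨π, ?_⟩
  funext i
  have : u' (π i) = u i := by
    simp only [π, Equiv.trans_apply, Equiv.sigmaCongrRight_apply, Equiv.sigmaFiberEquiv_apply]
    exact (e _ _).2
  exact this.symm

/-- The number of pairs (word, permutation fixing it). -/
theorem card_fixed_le :
    Fintype.card {p : (Fin k → α) × Equiv.Perm (Fin k) // p.1 ∘ p.2 = p.1} ≤
      (k + 1) ^ (Fintype.card α) * k.factorial := by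
  classical
  by_cases hne : Nonempty (Fin k → α)
  · let rep : (α → Fin (k + 1)) → (Fin k → α) := fun c =>
      if h : ∃ u : Fin k → α, cnt u = c then h.choose else hne.some
    have hrep : ∀ u : Fin k → α, cnt (rep (cnt u)) = cnt u := by
      intro u
      have h : ∃ u' : Fin k → α, cnt u' = cnt u := ⟨u, rfl⟩
      simp only [rep, dif_pos h]
      exact h.choose_spec
    choose π hπ using fun u : Fin k → α => cnt_perm u (rep (cnt u)) (hrep u).symm
    let F : {p : (Fin k → α) × Equiv.Perm (Fin k) // p.1 ∘ p.2 = p.1} →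
        (α → Fin (k + 1)) × Equiv.Perm (Fin k) := fun p => (cnt p.1.1, π p.1.1 * p.1.2)
    have hF : Function.Injective F := by
      rintro ⟨⟨u, ρ⟩, hu⟩ ⟨⟨u', ρ'⟩, hu'⟩ heq
      simp only [F, Prod.mk.injEq] at heq
      obtain ⟨h1, h2⟩ := heq
      simp only at hu hu'
      have h3 : ∀ (u : Fin k → α) (ρ : Equiv.Perm (Fin k)), u ∘ ρ = u →
          rep (cnt u) ∘ (π u * ρ) = u := by
        intro u ρ h
        have : rep (cnt u) ∘ (π u * ρ) = (rep (cnt u) ∘ π u) ∘ ρ := by
          rw [Equiv.Perm.coe_mul, Function.comp_assoc]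
        rw [this, ← hπ u, h]
      have h4 : u = u' := by
        rw [← h3 u ρ hu, ← h3 u' ρ' hu', h1, h2]
      subst h4
      have h5 : ρ = ρ' := mul_left_cancel h2
      subst h5
      rfl
    have h6 := Fintype.card_le_of_injective F hF
    simpa [Fintype.card_perm] using h6
  · have h0 : IsEmpty (Fin k → α) := not_nonempty_iff.1 hne
    haveI : IsEmpty {p : (Fin k → α) × Equiv.Perm (Fin k) // p.1 ∘ p.2 = p.1} :=
      ⟨fun p => h0.elim p.1.1⟩
    rw [Fintype.card_eq_zero]
    exact Nat.zero_le _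

/-- Sum over pairs of permutations of the number of words on which they agree. -/
theorem sum_agree_le :
    ∑ σ : Equiv.Perm (Fin k), ∑ τ : Equiv.Perm (Fin k),
      ((univ : Finset (Fin k → α)).filter (fun u => u ∘ σ = u ∘ τ)).card ≤
      k.factorial * ((k + 1) ^ (Fintype.card α) * k.factorial) := by
  classical
  have h1 : ∀ τ : Equiv.Perm (Fin k), ∑ σ : Equiv.Perm (Fin k),
      ((univ : Finset (Fin k → α)).filter (fun u => u ∘ σ = u ∘ τ)).card =
      ∑ ρ : Equiv.Perm (Fin k), ((univ : Finset (Fin k → α)).filter (fun u => u ∘ ρ = u)).card := by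
    intro τ
    refine Fintype.sum_equiv (Equiv.mulRight τ⁻¹) _ _ fun σ => ?_
    congr 1
    ext u
    simp only [Finset.mem_filter, Finset.mem_univ, true_and, Equiv.coe_mulRight]
    constructor
    · intro h
      rw [Equiv.Perm.coe_mul, ← Function.comp_assoc, h, Function.comp_assoc,
        ← Equiv.Perm.coe_mul, mul_inv_cancel]
      rfl
    · intro h
      have h2 : u ∘ (σ * τ⁻¹ : Equiv.Perm (Fin k)) ∘ τ = u ∘ τ := by
        rw [← Function.comp_assoc, h]
      rw [← h2]
      congr 1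
      funext i
      simp
  have h2 : ∑ ρ : Equiv.Perm (Fin k), ((univ : Finset (Fin k → α)).filter
      (fun u => u ∘ ρ = u)).card =
      Fintype.card {p : (Fin k → α) × Equiv.Perm (Fin k) // p.1 ∘ p.2 = p.1} := by
    rw [Fintype.card_subtype]
    have h3 : ((univ : Finset ((Fin k → α) × Equiv.Perm (Fin k))).filter
        (fun p => p.1 ∘ p.2 = p.1)).card =
        ∑ p : (Fin k → α) × Equiv.Perm (Fin k), if p.1 ∘ p.2 = p.1 then 1 else 0 := by
      rw [Finset.card_filter]
    rw [h3, Fintype.sum_prod_type_right]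
    refine Finset.sum_congr rfl fun ρ _ => ?_
    rw [Finset.card_filter]
  rw [Finset.sum_comm]
  calc ∑ τ : Equiv.Perm (Fin k), ∑ σ : Equiv.Perm (Fin k),
        ((univ : Finset (Fin k → α)).filter (fun u => u ∘ σ = u ∘ τ)).card
      = ∑ _τ : Equiv.Perm (Fin k), Fintype.card
          {p : (Fin k → α) × Equiv.Perm (Fin k) // p.1 ∘ p.2 = p.1} :=
        Finset.sum_congr rfl fun τ _ => by rw [h1 τ, h2]
    _ = k.factorial * Fintype.card
          {p : (Fin k → α) × Equiv.Perm (Fin k) // p.1 ∘ p.2 = p.1} := by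
        rw [Finset.sum_const, Finset.card_univ, Fintype.card_perm, Fintype.card_fin, smul_eq_mul]
    _ ≤ k.factorial * ((k + 1) ^ (Fintype.card α) * k.factorial) :=
        Nat.mul_le_mul_left _ card_fixed_le

end Count

/-- Task B. -/
theorem taskB {K : Type*} [Field K] [CharZero K] {ι : Type*} [Fintype ι] [DecidableEq ι] (k : ℕ)
    (s : Equiv.Perm (Fin k) → (Fin k → ι) → K) (hs : ∀ σ w, s σ w = 1 ∨ s σ w = -1) :
    Fintype.card ι ^ (2 * k) ≤ Module.finrank K (Submodule.span K (Set.range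
      fun σ : Equiv.Perm (Fin k) => fun ww : (Fin k → ι) × (Fin k → ι) =>
        if ww.2 = ww.1 ∘ σ then s σ ww.1 else 0)) * (k + 1) ^ (Fintype.card ι ^ 2) := by
  classical
  -- integer signs
  let z0 : Equiv.Perm (Fin k) → (Fin k → ι) → ℤ := fun σ w => if s σ w = 1 then 1 else -1
  have hz0 : ∀ σ w, ((z0 σ w : ℤ) : K) = s σ w := by
    intro σ w
    simp only [z0]
    split_ifs with h
    · rw [h]; simp
    · rw [(hs σ w).resolve_left h]; simp
  let z : Equiv.Perm (Fin k) → ((Fin k → ι) × (Fin k → ι)) → ℤ := fun σ ww =>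
    if ww.2 = ww.1 ∘ σ then z0 σ ww.1 else 0
  have hzK : (fun σ : Equiv.Perm (Fin k) => fun ww : (Fin k → ι) × (Fin k → ι) =>
        if ww.2 = ww.1 ∘ σ then s σ ww.1 else 0) = fun σ => fun ww => ((z σ ww : ℤ) : K) := by
    funext σ ww
    simp only [z]
    split_ifs
    · rw [hz0]
    · simp
  rw [hzK]
  have hcmp := finrank_compare (K := K) z
  set r : ℕ := Module.finrank ℝ (Submodule.span ℝ (Set.range fun i => fun w =>
    ((z i w : ℤ) : ℝ))) with hr
  -- Euclidean vectors
  let x : Equiv.Perm (Fin k) → EuclideanSpace ℝ ((Fin k → ι) × (Fin k → ι)) := fun σ =>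
    WithLp.toLp 2 (fun ww => ((z σ ww : ℤ) : ℝ))
  have hxr : Module.finrank ℝ (Submodule.span ℝ (Set.range x)) = r := by
    let L := (WithLp.linearEquiv 2 ℝ (((Fin k → ι) × (Fin k → ι)) → ℝ))
    have h1 : Submodule.span ℝ (Set.range fun i => fun w => ((z i w : ℤ) : ℝ)) =
        (Submodule.span ℝ (Set.range x)).map (L : _ →ₗ[ℝ] _) := by
      rw [Submodule.map_span]
      congr 1
      ext v
      simp only [Set.mem_range, Set.mem_image, exists_exists_eq_and]
      rfl
    rw [hr, h1]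
    exact (LinearEquiv.finrank_map_eq L (Submodule.span ℝ (Set.range x))).symm
  have htr := trace_rank x
  rw [hxr] at htr
  set D : ℕ := Fintype.card ι with hD
  have hsq1 : ∀ σ w, ((z0 σ w : ℤ) : ℝ) * ((z0 σ w : ℤ) : ℝ) = 1 := by
    intro σ w
    simp only [z0]
    split_ifs <;> simp
  have habs1 : ∀ σ w, |((z0 σ w : ℤ) : ℝ)| ≤ 1 := by
    intro σ w
    simp only [z0]
    split_ifs <;> simp
  have hinner : ∀ σ τ, inner ℝ (x σ) (x τ) =
      ∑ w : Fin k → ι, if w ∘ σ = w ∘ τ then ((z0 σ w : ℤ) : ℝ) * ((z0 τ w : ℤ) : ℝ) else 0 := by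
    intro σ τ
    rw [PiLp.inner_apply, Fintype.sum_prod_type]
    refine Finset.sum_congr rfl fun w _ => ?_
    have h1 : ∀ w' : Fin k → ι, inner ℝ ((x σ) (w, w')) ((x τ) (w, w')) =
        if w' = w ∘ σ then (if w ∘ σ = w ∘ τ then ((z0 σ w : ℤ) : ℝ) * ((z0 τ w : ℤ) : ℝ) else 0)
          else 0 := by
      intro w'
      simp only [x, z]
      by_cases h2 : w' = w ∘ σ
      · subst h2
        by_cases h3 : w ∘ σ = w ∘ τ
        · simp [h3, mul_comm]
        · simp [h3]
      · simp [h2]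
    simp_rw [h1]
    simp
  have hnorm : ∀ σ, ‖x σ‖ ^ 2 = (D : ℝ) ^ k := by
    intro σ
    rw [← real_inner_self_eq_norm_sq, hinner σ σ]
    simp only [if_true, hsq1]
    simp [hD]
  have hle : ∀ σ τ, (inner ℝ (x σ) (x τ)) ^ 2 ≤
      (((univ : Finset (Fin k → ι × ι)).filter (fun u => u ∘ σ = u ∘ τ)).card : ℝ) := by
    intro σ τ
    set A := (univ : Finset (Fin k → ι)).filter (fun w => w ∘ σ = w ∘ τ) with hA
    have h1 : |inner ℝ (x σ) (x τ)| ≤ (A.card : ℝ) := by
      rw [hinner]
      refine (Finset.abs_sum_le_sum_abs _ _).trans ?_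
      rw [hA, Finset.card_filter]
      push_cast
      refine Finset.sum_le_sum fun w _ => ?_
      split_ifs with h
      · rw [abs_mul]
        exact mul_le_one₀ (habs1 _ _) (abs_nonneg _) (habs1 _ _)
      · simp
    have h2 : ((univ : Finset (Fin k → ι × ι)).filter (fun u => u ∘ σ = u ∘ τ)).card =
        A.card * A.card := by
      rw [← Finset.card_product]
      refine Finset.card_bij' (fun u _ => (Prod.fst ∘ u, Prod.snd ∘ u))
        (fun p _ => fun i => (p.1 i, p.2 i)) ?_ ?_ ?_ ?_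
      · intro u hu
        have hu' := (Finset.mem_filter.1 hu).2
        refine Finset.mem_product.2 ⟨Finset.mem_filter.2 ⟨Finset.mem_univ _, ?_⟩,
          Finset.mem_filter.2 ⟨Finset.mem_univ _, ?_⟩⟩
        · show (Prod.fst ∘ u) ∘ σ = (Prod.fst ∘ u) ∘ τ
          rw [Function.comp_assoc, hu', ← Function.comp_assoc]
        · show (Prod.snd ∘ u) ∘ σ = (Prod.snd ∘ u) ∘ τ
          rw [Function.comp_assoc, hu', ← Function.comp_assoc]
      · rintro ⟨w1, w2⟩ hp
        obtain ⟨hp1, hp2⟩ := Finset.mem_product.1 hp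
        have h3 := (Finset.mem_filter.1 hp1).2
        have h4 := (Finset.mem_filter.1 hp2).2
        refine Finset.mem_filter.2 ⟨Finset.mem_univ _, ?_⟩
        funext i
        have h5 := congrFun h3 i
        have h6 := congrFun h4 i
        simp only [Function.comp_apply] at h5 h6 ⊢
        rw [h5, h6]
      · intro u _
        rfl
      · rintro ⟨w1, w2⟩ _
        rfl
    rw [h2]
    push_cast
    rw [← sq, ← sq_abs]
    exact pow_le_pow_left₀ (abs_nonneg _) h1 2
  have hsumle : ∑ σ, ∑ τ, (inner ℝ (x σ) (x τ)) ^ 2 ≤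
      (k.factorial : ℝ) * (((k : ℝ) + 1) ^ (D ^ 2) * k.factorial) := by
    have h1 := sum_agree_le (α := ι × ι) (k := k)
    have h2 : ∑ σ : Equiv.Perm (Fin k), ∑ τ : Equiv.Perm (Fin k), (inner ℝ (x σ) (x τ)) ^ 2 ≤
        ((∑ σ : Equiv.Perm (Fin k), ∑ τ : Equiv.Perm (Fin k),
          ((univ : Finset (Fin k → ι × ι)).filter (fun u => u ∘ σ = u ∘ τ)).card : ℕ) : ℝ) := by
      push_cast
      exact Finset.sum_le_sum fun σ _ => Finset.sum_le_sum fun τ _ => hle σ τ
    refine h2.trans ?_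
    have h3 : Fintype.card (ι × ι) = D ^ 2 := by
      rw [Fintype.card_prod, hD, sq]
    rw [h3] at h1
    exact_mod_cast h1
  have hS1 : ∑ σ, ‖x σ‖ ^ 2 = (k.factorial : ℝ) * (D : ℝ) ^ k := by
    simp_rw [hnorm]
    rw [Finset.sum_const, Finset.card_univ, Fintype.card_perm, Fintype.card_fin, nsmul_eq_mul]
  rw [hS1] at htr
  have hfin : ((D : ℝ) ^ k) ^ 2 ≤ r * ((k : ℝ) + 1) ^ (D ^ 2) := by
    have hf : (0 : ℝ) < k.factorial := by exact_mod_cast k.factorial_pos
    have h1 : (k.factorial : ℝ) ^ 2 * ((D : ℝ) ^ k) ^ 2 ≤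
        (k.factorial : ℝ) ^ 2 * (r * ((k : ℝ) + 1) ^ (D ^ 2)) := by
      calc (k.factorial : ℝ) ^ 2 * ((D : ℝ) ^ k) ^ 2 = ((k.factorial : ℝ) * (D : ℝ) ^ k) ^ 2 := by
            ring
        _ ≤ (r : ℝ) * ∑ σ, ∑ τ, (inner ℝ (x σ) (x τ)) ^ 2 := htr
        _ ≤ (r : ℝ) * ((k.factorial : ℝ) * (((k : ℝ) + 1) ^ (D ^ 2) * k.factorial)) :=
            mul_le_mul_of_nonneg_left hsumle (Nat.cast_nonneg _)
        _ = _ := by ring
    exact le_of_mul_le_mul_left h1 (by positivity)
  have hfinN : D ^ (2 * k) ≤ r * (k + 1) ^ (D ^ 2) := by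
    have h1 : (((D ^ (2 * k) : ℕ)) : ℝ) ≤ ((r * (k + 1) ^ (D ^ 2) : ℕ) : ℝ) := by
      push_cast
      rw [mul_comm 2 k, pow_mul]
      exact hfin
    exact_mod_cast h1
  exact hfinN.trans (Nat.mul_le_mul_right _ hcmp)

end PermRank

end Pool.Agent.K4H10.ZO
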