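import Mathlib

/-!
# Zero-one law, task A: insertion count and Chernoff bound
-/

namespace Pool.Agent.K4H10.ZO

open Finset BigOperators

section Ins

variable {ι : Type*} [Fintype ι] [DecidableEq ι]

/-- The rate in the Chernoff bound. -/
noncomputable def rate (D : ℕ) (δ : ℝ) : ℝ := ((1 + δ) * Real.log (1 + δ) - δ) / D

theorem rate_pos {D : ℕ} (hD : 0 < D) {δ : ℝ} (hδ : 0 < δ) : 0 < rate D δ := by
  unfold rate
  have hD' : (0 : ℝ) < D := by exact_mod_cast hD
  refine div_pos ?_ hD'
  have h1 : (0 : ℝ) < 1 + δ := by linarith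
  have h2 : (1 + δ)⁻¹ ≠ 1 := by
    intro h
    rw [inv_eq_one] at h
    linarith
  have h3 := Real.log_lt_sub_one_of_pos (inv_pos.2 h1) h2
  rw [Real.log_inv] at h3
  have h4 : (1 + δ) * ((1 + δ)⁻¹ - 1) = -δ := by
    field_simp
    ring
  have h5 : (1 + δ) * (-Real.log (1 + δ)) < (1 + δ) * ((1 + δ)⁻¹ - 1) :=
    mul_lt_mul_of_pos_left h3 h1
  rw [h4] at h5
  linarith

/-- Chernoff bound: few words have too many letters `x` at the positions in `B`. -/
theorem chernoff [Nonempty ι] (n : ℕ) (B : Finset (Fin n)) (x : ι) (δ : ℝ) (hδ : 0 < δ) :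
    (((univ : Finset (Fin n → ι)).filter (fun w => (1 + δ) * B.card / (Fintype.card ι : ℝ) <
      ((B.filter (fun t => w t = x)).card : ℝ))).card : ℝ) ≤
      (Fintype.card ι : ℝ) ^ n * Real.exp (-(rate (Fintype.card ι) δ) * B.card) := by
  set D : ℕ := Fintype.card ι with hDdef
  have hDpos : 0 < D := Fintype.card_pos
  have hD : (0 : ℝ) < D := by exact_mod_cast hDpos
  set Bad := (univ : Finset (Fin n → ι)).filter (fun w => (1 + δ) * B.card / (D : ℝ) <
      ((B.filter (fun t => w t = x)).card : ℝ)) with hBad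
  let f : Fin n → ι → ℝ := fun i a => if i ∈ B ∧ a = x then 1 + δ else 1
  have hfpos : ∀ i a, 0 < f i a := by
    intro i a
    simp only [f]
    split_ifs <;> linarith
  have hw : ∀ w : Fin n → ι, ∏ i, f i (w i) = (1 + δ) ^ (B.filter (fun t => w t = x)).card := by
    intro w
    simp only [f]
    rw [Finset.prod_ite, Finset.prod_const, Finset.prod_const_one, mul_one]
    congr 2
    ext i
    simp
  have hsum : ∑ w : Fin n → ι, ∏ i, f i (w i) = ∏ i, ∑ a, f i a := by
    rw [Finset.prod_univ_sum]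
    simp
  have hfi : ∀ i, ∑ a, f i a ≤ D * Real.exp (if i ∈ B then δ / D else 0) := by
    intro i
    by_cases hi : i ∈ B
    · have h1 : ∑ a, f i a = D + δ := by
        have h2 : ∀ a, f i a = 1 + (if a = x then δ else 0) := by
          intro a
          simp only [f, hi, true_and]
          split_ifs <;> ring
        simp_rw [h2]
        rw [Finset.sum_add_distrib]
        simp [hDdef]
      rw [h1, if_pos hi]
      have h3 := Real.add_one_le_exp (δ / D)
      calc (D : ℝ) + δ = D * (δ / D + 1) := by field_simp; ring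
        _ ≤ D * Real.exp (δ / D) := mul_le_mul_of_nonneg_left h3 hD.le
    · have h1 : ∑ a, f i a = D := by
        have h2 : ∀ a, f i a = 1 := by
          intro a
          simp [f, hi]
        simp_rw [h2]
        simp [hDdef]
      rw [h1, if_neg hi]
      simp
  have hprod : ∏ i, ∑ a, f i a ≤ (D : ℝ) ^ n * Real.exp (δ / D * B.card) := by
    calc ∏ i, ∑ a, f i a ≤ ∏ i : Fin n, ((D : ℝ) * Real.exp (if i ∈ B then δ / D else 0)) :=
          Finset.prod_le_prod (fun i _ => Finset.sum_nonneg fun a _ => (hfpos i a).le)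
            (fun i _ => hfi i)
      _ = (D : ℝ) ^ n * Real.exp (δ / D * B.card) := by
          rw [Finset.prod_mul_distrib, Finset.prod_const, ← Real.exp_sum]
          simp only [Finset.card_univ, Fintype.card_fin]
          congr 2
          rw [Finset.sum_ite_mem]
          simp
          ring
  have hl : 0 < Real.log (1 + δ) := Real.log_pos (by linarith)
  have hbad : (Bad.card : ℝ) * Real.exp (Real.log (1 + δ) * ((1 + δ) * B.card / D)) ≤
      ∑ w : Fin n → ι, ∏ i, f i (w i) := by
    calc (Bad.card : ℝ) * Real.exp (Real.log (1 + δ) * ((1 + δ) * B.card / D))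
        = ∑ _w ∈ Bad, Real.exp (Real.log (1 + δ) * ((1 + δ) * B.card / D)) := by
          rw [Finset.sum_const, nsmul_eq_mul]
      _ ≤ ∑ w ∈ Bad, ∏ i, f i (w i) := by
          refine Finset.sum_le_sum fun w hwB => ?_
          rw [hw w]
          have h1 : (1 + δ) ^ (B.filter (fun t => w t = x)).card =
              Real.exp (Real.log (1 + δ) * ((B.filter (fun t => w t = x)).card : ℝ)) := by
            rw [mul_comm, Real.exp_nat_mul, Real.exp_log (by linarith)]
          rw [h1]
          refine Real.exp_le_exp.2 (mul_le_mul_of_nonneg_left ?_ hl.le)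
          exact (Finset.mem_filter.1 hwB).2.le
      _ ≤ ∑ w : Fin n → ι, ∏ i, f i (w i) :=
          Finset.sum_le_univ_sum_of_nonneg fun w => Finset.prod_nonneg fun i _ => (hfpos i _).le
  have hall := hbad.trans (hsum.le.trans hprod)
  have hE : Real.exp (-(rate D δ) * B.card) * Real.exp (Real.log (1 + δ) * ((1 + δ) * B.card / D))
      = Real.exp (δ / D * B.card) := by
    rw [← Real.exp_add]
    congr 1
    unfold rate
    field_simp
    ring
  have hEpos := Real.exp_pos (Real.log (1 + δ) * ((1 + δ) * B.card / D))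
  rw [← hE, ← mul_assoc] at hall
  exact le_of_mul_le_mul_right hall hEpos

/-- One insertion step. -/
theorem insert_step [Nonempty ι] (δ : ℝ) (hδ : 0 < δ) (M s l : ℕ) (h : s + l ≤ M + 1) (x : ι)
    (S : Finset (Fin M → ι)) :
    ∃ S' : Finset (Fin (M + 1) → ι),
      (∀ w' ∈ S', ∃ t : Fin (M + 1), s ≤ (t : ℕ) ∧ (t : ℕ) < s + l ∧ ∃ w ∈ S,
        w' = Fin.insertNth (α := fun _ => ι) t x w) ∧
      (Fintype.card ι : ℝ) / (1 + δ) * ((S.card : ℝ) - (Fintype.card ι : ℝ) ^ (M + 1) *
        Real.exp (-(rate (Fintype.card ι) δ) * l)) ≤ (S'.card : ℝ) := by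
  set D : ℕ := Fintype.card ι with hDdef
  have hDpos : 0 < D := Fintype.card_pos
  have hD : (0 : ℝ) < D := by exact_mod_cast hDpos
  have h1δ : (0 : ℝ) < 1 + δ := by linarith
  let B : Finset (Fin (M + 1)) := univ.filter (fun t => s ≤ (t : ℕ) ∧ (t : ℕ) < s + l)
  have hBcard : B.card = l := by
    have h1 : B.map Fin.valEmbedding = Finset.Ico s (s + l) := by
      ext a
      simp only [Finset.mem_map, Finset.mem_Ico, B, Finset.mem_filter, Finset.mem_univ, true_and,
        Fin.valEmbedding_apply]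
      constructor
      · rintro ⟨t, ht, rfl⟩
        exact ht
      · intro ha
        exact ⟨⟨a, by omega⟩, ha, rfl⟩
    have h2 := congrArg Finset.card h1
    rw [Finset.card_map, Nat.card_Ico] at h2
    omega
  let F : Fin (M + 1) × (Fin M → ι) → (Fin (M + 1) → ι) :=
    fun tw => Fin.insertNth (α := fun _ => ι) tw.1 x tw.2
  let S' : Finset (Fin (M + 1) → ι) := (B ×ˢ S).image F
  refine ⟨S', ?_, ?_⟩
  · intro w' hw'
    obtain ⟨⟨t, w⟩, htw, rfl⟩ := Finset.mem_image.1 hw'
    obtain ⟨ht, hw⟩ := Finset.mem_product.1 htw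
    have ht' := (Finset.mem_filter.1 ht).2
    exact ⟨t, ht'.1, ht'.2, w, hw, rfl⟩
  · rcases Nat.eq_zero_or_pos l with hl | hl
    · subst hl
      have h1 : (S.card : ℝ) ≤ (D : ℝ) ^ (M + 1) := by
        have h2 : S.card ≤ D ^ M := by
          have := Finset.card_le_univ S
          simpa [hDdef] using this
        have h3 : D ^ M ≤ D ^ (M + 1) := Nat.pow_le_pow_right hDpos (Nat.le_succ M)
        exact_mod_cast h2.trans h3
      have h2 : (D : ℝ) / (1 + δ) * ((S.card : ℝ) - (D : ℝ) ^ (M + 1) *
          Real.exp (-(rate D δ) * ((0 : ℕ) : ℝ))) ≤ 0 := by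
        refine mul_nonpos_of_nonneg_of_nonpos (by positivity) ?_
        simp only [Nat.cast_zero, mul_zero, Real.exp_zero, mul_one]
        linarith
      exact h2.trans (Nat.cast_nonneg _)
    · have hlR : (0 : ℝ) < l := by exact_mod_cast hl
      set Bad := (univ : Finset (Fin (M + 1) → ι)).filter (fun w => (1 + δ) * B.card / (D : ℝ) <
        ((B.filter (fun t => w t = x)).card : ℝ)) with hBad
      have hch : (Bad.card : ℝ) ≤ (D : ℝ) ^ (M + 1) * Real.exp (-(rate D δ) * B.card) :=
        chernoff (M + 1) B x δ hδ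
      have hfib : ∀ w' ∈ S', ((B ×ˢ S).filter (fun tw => F tw = w')).card ≤
          (B.filter (fun t => w' t = x)).card := by
        intro w' _
        refine Finset.card_le_card_of_injOn (fun tw => tw.1) ?_ ?_
        · rintro ⟨t, w⟩ htw
          have htw' := Finset.mem_filter.1 (Finset.mem_coe.1 htw)
          obtain ⟨ht, hw⟩ := Finset.mem_product.1 htw'.1
          refine Finset.mem_coe.2 (Finset.mem_filter.2 ⟨ht, ?_⟩)
          rw [← htw'.2]
          simp [F]
        · rintro ⟨t, w⟩ htw ⟨t2, w2⟩ htw2 heq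
          have h1 := (Finset.mem_filter.1 (Finset.mem_coe.1 htw)).2
          have h2 := (Finset.mem_filter.1 (Finset.mem_coe.1 htw2)).2
          simp only at heq
          subst heq
          have h3 : Fin.insertNth (α := fun _ => ι) t x w = Fin.insertNth (α := fun _ => ι) t x w2 :=
            h1.trans h2.symm
          have h4 : w = w2 := by
            funext i
            have := congrFun h3 (t.succAbove i)
            simpa using this
          rw [h4]
      have hcount : (B.card * S.card : ℕ) ≤ ∑ w' ∈ S', (B.filter (fun t => w' t = x)).card := by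
        rw [← Finset.card_product, Finset.card_eq_sum_card_image F (B ×ˢ S)]
        exact Finset.sum_le_sum hfib
      have hcountR : (l : ℝ) * S.card ≤ ∑ w' ∈ S', ((B.filter (fun t => w' t = x)).card : ℝ) := by
        rw [hBcard] at hcount
        exact_mod_cast hcount
      have hle : ∀ w' ∈ S', ((B.filter (fun t => w' t = x)).card : ℝ) ≤
          (1 + δ) * l / D + (if w' ∈ Bad then (l : ℝ) else 0) := by
        intro w' _
        by_cases hb : w' ∈ Bad
        · rw [if_pos hb]
          have h1 : ((B.filter (fun t => w' t = x)).card : ℝ) ≤ l := by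
            rw [← hBcard]
            exact_mod_cast Finset.card_filter_le _ _
          have h2 : 0 ≤ (1 + δ) * l / D := by positivity
          linarith
        · rw [if_neg hb, add_zero]
          have h1 : ¬ ((1 + δ) * B.card / (D : ℝ) <
              ((B.filter (fun t => w' t = x)).card : ℝ)) := by
            intro h2
            exact hb (Finset.mem_filter.2 ⟨Finset.mem_univ _, h2⟩)
          rw [hBcard] at h1
          exact not_lt.1 h1
      have hsum : ∑ w' ∈ S', ((B.filter (fun t => w' t = x)).card : ℝ) ≤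
          S'.card * ((1 + δ) * l / D) + Bad.card * l := by
        refine (Finset.sum_le_sum hle).trans ?_
        rw [Finset.sum_add_distrib, Finset.sum_const, nsmul_eq_mul]
        refine add_le_add le_rfl ?_
        rw [← Finset.sum_filter, Finset.sum_const, nsmul_eq_mul]
        refine mul_le_mul_of_nonneg_right ?_ hlR.le
        have : (S'.filter (fun w' => w' ∈ Bad)).card ≤ Bad.card :=
          Finset.card_le_card fun w hw => (Finset.mem_filter.1 hw).2
        exact_mod_cast this
      have htot := hcountR.trans hsum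
      have h5 : (S.card : ℝ) ≤ S'.card * ((1 + δ) / D) + Bad.card := by
        have h6 : (l : ℝ) * S.card ≤ l * (S'.card * ((1 + δ) / D) + Bad.card) := by
          refine htot.trans (le_of_eq ?_)
          ring
        exact le_of_mul_le_mul_left h6 hlR
      rw [hBcard] at hch
      have h7 : (D : ℝ) / (1 + δ) * ((S.card : ℝ) - (D : ℝ) ^ (M + 1) *
          Real.exp (-(rate D δ) * l)) ≤ (D : ℝ) / (1 + δ) * (S'.card * ((1 + δ) / D)) := by
        refine mul_le_mul_of_nonneg_left ?_ (by positivity)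
        linarith
      refine h7.trans (le_of_eq ?_)
      field_simp

/-- All insertions. -/
theorem insert_all [Nonempty ι] (δ : ℝ) (hδ : 0 < δ) (m l : ℕ) (L : Finset (Fin m → ι)) :
    ∀ (q : ℕ), q * l ≤ m → ∀ (u : Fin q → ι), ∃ S : Finset (Fin (m + q) → ι),
      (∀ w ∈ S, ∃ (p : Fin q ↪o Fin (m + q)) (c : Fin m ↪o Fin (m + q)),
        (∀ i j, p i ≠ c j) ∧ w ∘ p = u ∧ w ∘ c ∈ L ∧ ∀ i, (p i : ℕ) < q * l) ∧
      ((Fintype.card ι : ℝ) / (1 + δ)) ^ q * (L.card : ℝ) - q * ((Fintype.card ι : ℝ) ^ (m + q + 1) *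
        Real.exp (-(rate (Fintype.card ι) δ) * l)) ≤ (S.card : ℝ) := by
  set D : ℕ := Fintype.card ι with hDdef
  have hDpos : 0 < D := Fintype.card_pos
  have hD : (0 : ℝ) < D := by exact_mod_cast hDpos
  have h1δ : (0 : ℝ) < 1 + δ := by linarith
  intro q
  induction q with
  | zero =>
    intro _ u
    refine ⟨L, fun w hw => ⟨⟨⟨Fin.elim0, fun i => i.elim0⟩, fun {i} => i.elim0⟩,
      OrderEmbedding.id _ , fun i => i.elim0, ?_, hw, fun i => i.elim0⟩, ?_⟩
    · funext i
      exact i.elim0
    · simp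
  | succ q ih =>
    intro hql u
    have hql' : q * l ≤ m := (Nat.mul_le_mul_right l (Nat.le_succ q)).trans hql
    obtain ⟨S, hS1, hS2⟩ := ih hql' (fun i => u i.castSucc)
    have hst : q * l + l ≤ (m + q) + 1 := by
      have : (q + 1) * l = q * l + l := by ring
      omega
    obtain ⟨S', hS'1, hS'2⟩ := insert_step δ hδ (m + q) (q * l) l hst (u (Fin.last q)) S
    refine ⟨S', ?_, ?_⟩
    · intro w' hw'
      obtain ⟨t, ht1, ht2, w, hw, rfl⟩ := hS'1 w' hw'
      obtain ⟨p, c, hpc, hwp, hwc, hpl⟩ := hS1 w hw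
      have hpt : ∀ i, t.succAbove (p i) = (p i).castSucc := by
        intro i
        refine Fin.succAbove_of_castSucc_lt _ _ ?_
        rw [Fin.lt_def]
        exact (hpl i).trans_le ht1
      let p' : Fin (q + 1) → Fin (m + q + 1) := Fin.snoc (α := fun _ => Fin (m + q + 1))
        (fun i => (p i).castSucc) t
      have hp'c : ∀ i : Fin q, p' i.castSucc = (p i).castSucc := fun i => by
        simp [p', Fin.snoc_castSucc]
      have hp'l : p' (Fin.last q) = t := by simp [p']
      have hmono : StrictMono p' := by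
        intro a b hab
        refine Fin.lastCases (fun hb => ?_) (fun b' hb => ?_) b hab
        · refine Fin.lastCases (fun h => absurd h (lt_irrefl _)) (fun a' _ => ?_) a hb
          rw [hp'c, hp'l, Fin.lt_def]
          exact (hpl a').trans_le ht1
        · refine Fin.lastCases (fun h => ?_) (fun a' h => ?_) a hb
          · exact absurd (h.trans (Fin.castSucc_lt_last b')) (lt_irrefl _)
          · rw [hp'c, hp'c]
            exact Fin.castSucc_lt_castSucc_iff.2 (p.strictMono (Fin.castSucc_lt_castSucc_iff.1 h))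
      refine ⟨OrderEmbedding.ofStrictMono p' hmono, c.trans (Fin.succAboveOrderEmb t), ?_, ?_, ?_, ?_⟩
      · intro i j
        refine Fin.lastCases ?_ (fun i' => ?_) i
        · simp only [OrderEmbedding.coe_ofStrictMono, hp'l, RelEmbedding.coe_trans,
            Function.comp_apply, Fin.succAboveOrderEmb_apply]
          exact (Fin.succAbove_ne t (c j)).symm
        · simp only [OrderEmbedding.coe_ofStrictMono, hp'c, RelEmbedding.coe_trans,
            Function.comp_apply, Fin.succAboveOrderEmb_apply]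
          rw [← hpt]
          intro heq
          exact hpc i' j (Fin.succAbove_right_injective heq)
      · funext i
        refine Fin.lastCases ?_ (fun i' => ?_) i
        · simp only [Function.comp_apply, OrderEmbedding.coe_ofStrictMono, hp'l]
          simp
        · simp only [Function.comp_apply, OrderEmbedding.coe_ofStrictMono, hp'c]
          rw [← hpt, Fin.insertNth_apply_succAbove]
          exact congrFun hwp i'
      · have : (Fin.insertNth (α := fun _ => ι) t (u (Fin.last q)) w) ∘
            (c.trans (Fin.succAboveOrderEmb t)) = w ∘ c := by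
          funext j
          simp
        rw [this]
        exact hwc
      · intro i
        have h2 : (q + 1) * l = q * l + l := by ring
        refine Fin.lastCases ?_ (fun i' => ?_) i
        · simp only [OrderEmbedding.coe_ofStrictMono, hp'l]
          omega
        · simp only [OrderEmbedding.coe_ofStrictMono, hp'c, Fin.val_castSucc]
          have := hpl i'
          omega
    · refine le_trans ?_ hS'2
      set X : ℝ := Real.exp (-(rate D δ) * l) with hX
      have hXpos : 0 < X := Real.exp_pos _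
      have hr : (D : ℝ) / (1 + δ) ≤ D := div_le_self hD.le (by linarith)
      have hr0 : 0 < (D : ℝ) / (1 + δ) := by positivity
      have h1 : (D : ℝ) / (1 + δ) * ((((D : ℝ) / (1 + δ)) ^ q * (L.card : ℝ) -
          q * ((D : ℝ) ^ (m + q + 1) * X)) - (D : ℝ) ^ (m + q + 1) * X) ≤
          (D : ℝ) / (1 + δ) * ((S.card : ℝ) - (D : ℝ) ^ (m + q + 1) * X) := by
        refine mul_le_mul_of_nonneg_left ?_ hr0.le
        linarith
      refine le_trans ?_ h1
      have h2 : (D : ℝ) / (1 + δ) * ((((D : ℝ) / (1 + δ)) ^ q * (L.card : ℝ) -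
          q * ((D : ℝ) ^ (m + q + 1) * X)) - (D : ℝ) ^ (m + q + 1) * X) =
          ((D : ℝ) / (1 + δ)) ^ (q + 1) * (L.card : ℝ) -
          (D : ℝ) / (1 + δ) * ((q + 1) * ((D : ℝ) ^ (m + q + 1) * X)) := by
        ring
      rw [h2]
      have h3 : (D : ℝ) / (1 + δ) * ((q + 1) * ((D : ℝ) ^ (m + q + 1) * X)) ≤
          D * ((q + 1) * ((D : ℝ) ^ (m + q + 1) * X)) :=
        mul_le_mul_of_nonneg_right hr (by positivity)
      have h4 : (D : ℝ) * ((q + 1) * ((D : ℝ) ^ (m + q + 1) * X)) =
          ((q + 1 : ℕ) : ℝ) * ((D : ℝ) ^ (m + (q + 1) + 1) * X) := by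
        push_cast
        ring
      rw [h4] at h3
      linarith

/-- Task A. -/
theorem taskA {ι : Type*} [Fintype ι] [DecidableEq ι] [Nonempty ι] (q : ℕ) (hq : 0 < q) (ε : ℝ)
    (hε : 0 < ε) (hε1 : ε < 1) :
    ∃ C κ : ℝ, 0 ≤ C ∧ 0 < κ ∧ κ < 1 ∧ ∀ (m : ℕ) (L : Finset (Fin m → ι)) (u : Fin q → ι)
      (T : Finset (Fin (m + q) → ι)),
      (∀ (p : Fin q ↪o Fin (m + q)) (c : Fin m ↪o Fin (m + q)), (∀ i j, p i ≠ c j) →
        ∀ w : Fin (m + q) → ι, w ∘ p = u → w ∘ c ∈ L → w ∈ T) →
      (1 - ε) * (Fintype.card ι : ℝ) ^ q *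
        ((L.card : ℝ) - C * κ ^ m * (Fintype.card ι : ℝ) ^ m) ≤ (T.card : ℝ) := by
  set D : ℕ := Fintype.card ι with hDdef
  have hDpos : 0 < D := Fintype.card_pos
  have hD : (0 : ℝ) < D := by exact_mod_cast hDpos
  have hqR : (0 : ℝ) < q := by exact_mod_cast hq
  set δ : ℝ := ε / q with hδd
  have hδ : 0 < δ := by positivity
  have hη := rate_pos (D := D) hDpos hδ
  set κ : ℝ := Real.exp (-(rate D δ) / q) with hκ
  have hκpos : 0 < κ := Real.exp_pos _
  have hκ1 : κ < 1 := by
    rw [hκ, Real.exp_lt_one_iff]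
    exact div_neg_of_neg_of_pos (by linarith) hqR
  have h1ε : 0 < 1 - ε := by linarith
  set C : ℝ := q * D * (κ ^ q)⁻¹ / (1 - ε) with hC
  have hC0 : 0 ≤ C := by positivity
  refine ⟨C, κ, hC0, hκpos, hκ1, fun m L u T hT => ?_⟩
  set l : ℕ := m / q with hl
  have hql : q * l ≤ m := Nat.mul_div_le m q
  obtain ⟨S, hS1, hS2⟩ := insert_all δ hδ m l L q hql u
  have hST : S ⊆ T := by
    intro w hw
    obtain ⟨p, c, hpc, hwp, hwc, _⟩ := hS1 w hw
    exact hT p c hpc w hwp hwc
  have hcard : (S.card : ℝ) ≤ T.card := by exact_mod_cast Finset.card_le_card hST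
  refine le_trans ?_ (hS2.trans hcard)
  have hpow : 1 - ε ≤ (1 / (1 + δ)) ^ q := by
    have h1 : 1 - δ ≤ 1 / (1 + δ) := by
      rw [le_div_iff₀ (by linarith)]
      nlinarith
    have h2 : δ ≤ 1 := by
      rw [hδd, div_le_one hqR]
      have : (1 : ℝ) ≤ q := by exact_mod_cast hq
      linarith
    have h3 : (1 - δ) ^ q ≤ (1 / (1 + δ)) ^ q := pow_le_pow_left₀ (by linarith) h1 q
    have h4 : 1 + (q : ℝ) * (-δ) ≤ (1 + (-δ)) ^ q := one_add_mul_le_pow (by linarith) q
    have h5 : (q : ℝ) * δ = ε := by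
      rw [hδd]
      field_simp
    have h6 : (1 + -δ) ^ q = (1 - δ) ^ q := by ring
    rw [h6] at h4
    linarith
  have hpow2 : (1 - ε) * (D : ℝ) ^ q ≤ ((D : ℝ) / (1 + δ)) ^ q := by
    have h1 : ((D : ℝ) / (1 + δ)) ^ q = (1 / (1 + δ)) ^ q * (D : ℝ) ^ q := by
      rw [← mul_pow]
      congr 1
      ring
    rw [h1]
    exact mul_le_mul_of_nonneg_right hpow (by positivity)
  have hX : Real.exp (-(rate D δ) * l) ≤ (κ ^ q)⁻¹ * κ ^ m := by
    have h1 : Real.exp (-(rate D δ) * l) = κ ^ (q * l) := by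
      rw [hκ, ← Real.exp_nat_mul]
      congr 1
      push_cast
      field_simp
    rw [h1]
    have h2 : m < q * l + q := by
      have h3 := Nat.div_add_mod m q
      have h4 := Nat.mod_lt m hq
      rw [← hl] at h3
      omega
    have h3 : κ ^ (q * l + q) ≤ κ ^ m := pow_le_pow_of_le_one hκpos.le hκ1.le h2.le
    rw [pow_add] at h3
    have h4 : 0 < κ ^ q := by positivity
    rw [inv_mul_eq_div, le_div_iff₀ h4]
    exact h3
  have hmain : (q : ℝ) * ((D : ℝ) ^ (m + q + 1) * Real.exp (-(rate D δ) * l)) ≤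
      (1 - ε) * (D : ℝ) ^ q * (C * κ ^ m * (D : ℝ) ^ m) := by
    have h1 : (1 - ε) * (D : ℝ) ^ q * (C * κ ^ m * (D : ℝ) ^ m) =
        q * ((D : ℝ) ^ (m + q + 1) * ((κ ^ q)⁻¹ * κ ^ m)) := by
      rw [hC]
      field_simp
      ring
    rw [h1]
    refine mul_le_mul_of_nonneg_left ?_ hqR.le
    exact mul_le_mul_of_nonneg_left hX (by positivity)
  have h9 : (1 - ε) * (D : ℝ) ^ q * (L.card : ℝ) ≤ ((D : ℝ) / (1 + δ)) ^ q * (L.card : ℝ) :=
    mul_le_mul_of_nonneg_right hpow2 (Nat.cast_nonneg _)
  rw [mul_sub]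
  linarith

end Ins

end Pool.Agent.K4H10.ZO
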